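import Pool.Agent.P.MP_0b48ca_al.W.Ops

/-! Rigidity, first part: a pseudo-isometry respects the six blocks. -/

namespace Pool.Agent.P.MP_0b48ca_al.W

open Function Module Polynomial

variable {p : ℕ} [hp : Fact p.Prime] {K : Type} [Field K] [Algebra (ZMod p) K] (Δ : Data p K)
  {n : ℕ}

/-- The space `Y* × Y`. -/
abbrev VV (p : ℕ) (K : Type) (n : ℕ) [Fact p.Prime] [Field K] [Algebra (ZMod p) K] : Type :=
  Dual (ZMod p) (Fin n → Fin 6 → K) × (Fin n → Fin 6 → K)

/-- The operators on the invariant subspace `K ^ 3`. -/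
def N3 (x0 x1 x2 : K) : End K (Fin 3 → K) where
  toFun z := ![(x0 + x1 * Δ.θ 3) * z 0 + x2 * (Δ.c * z 2), (x0 + x1 * Δ.θ 4) * z 1 + x2 * z 0,
    (x0 + x1 * Δ.θ 5) * z 2 + x2 * z 1]
  map_add' y z := by ext i; fin_cases i <;> simp <;> ring
  map_smul' a y := by ext i; fin_cases i <;> simp <;> ring

theorem N3_ker {x0 x1 x2 : K} {z : Fin 3 → K} (hz : N3 Δ x0 x1 x2 z = 0)
    (h : (x0 + x1 * Δ.θ 3) * (x0 + x1 * Δ.θ 4) * (x0 + x1 * Δ.θ 5) + Δ.c * x2 ^ 3 ≠ 0) :
    z = 0 := by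
  obtain ⟨h0, h1, h2⟩ := cyc3 h (congrFun hz 0) (congrFun hz 1) (congrFun hz 2)
  ext i; fin_cases i <;> simpa

/-- The embedding of `K ^ 3`. -/
def J (z : Fin 3 → K) : Fin n → Fin 6 → K := fun _ => ![0, 0, 0, z 0, z 1, z 2]

theorem Mx_J (A B : Matrix (Fin n) (Fin n) (ZMod p)) (x : Fin 3 → ZMod p) (z : Fin 3 → K) :
    Mx (MM Δ A B) x (J z) = J (N3 Δ (algebraMap (ZMod p) K (x 0)) (algebraMap (ZMod p) K (x 1))
      (algebraMap (ZMod p) K (x 2)) z) := by
  rw [Mx_MM]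
  ext j i
  rw [Pi.add_apply, Pi.add_apply, Pi.smul_apply, Pi.smul_apply, D_apply, M2_apply,
    Algebra.smul_def]
  fin_cases i <;> simp [J, N3, kap]

omit hp [Algebra (ZMod p) K] in
theorem exists_eig [Finite K] (S : End K (Fin 3 → K)) (hS : S ^ Nat.card K = S) :
    ∃ (t : K) (z : Fin 3 → K), z ≠ 0 ∧ S z = t • z := by
  have hd : minpoly K S ∣ X ^ Nat.card K - X := minpoly.dvd K S (by simp [hS])
  have hs := (Polynomial.splits_X_pow_nat_card_sub_X (K := K)).of_dvd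
    (FiniteField.X_pow_card_sub_X_ne_zero K Finite.one_lt_card) hd
  obtain ⟨t, ht⟩ := hs.exists_eval_eq_zero
    (minpoly.degree_pos (Algebra.IsIntegral.isIntegral S)).ne'
  obtain ⟨z, hz⟩ := (End.hasEigenvalue_of_isRoot ht).exists_hasEigenvector
  exact ⟨t, z, hz.2, hz.apply_eq_smul⟩

variable {A B A' B' : Matrix (Fin n) (Fin n) (ZMod p)} {γ : VV p K n ≃ₗ[ZMod p] VV p K n}
  {h : (Fin 3 → ZMod p) ≃ₗ[ZMod p] (Fin 3 → ZMod p)}

theorem step1 [Finite K] (j0 : Fin n)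
    (hc : ∀ u v, om (MM Δ A' B') (γ u) (γ v) = h (om (MM Δ A B) u v)) :
    hm h.toLinearMap 0 2 = 0 ∧ hm h.toLinearMap 1 2 = 0 := by
  set x := hm h.toLinearMap 0 with hx
  set x' := hm h.toLinearMap 1 with hx'
  let N0 := N3 Δ (algebraMap (ZMod p) K (x 0)) (algebraMap (ZMod p) K (x 1))
    (algebraMap (ZMod p) K (x 2))
  let N1 := N3 Δ (algebraMap (ZMod p) K (x' 0)) (algebraMap (ZMod p) K (x' 1))
    (algebraMap (ZMod p) K (x' 2))
  have hN0 : Injective N0 := (injective_iff_map_eq_zero _).2 fun z hz =>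
    N3_ker Δ hz (cub_ne Δ (hm_ne h 0) 3 4 5)
  let e0 := LinearEquiv.ofInjectiveEndo N0 hN0
  let S : End K (Fin 3 → K) := e0.symm.toLinearMap ∘ₗ N1
  have hS : ∀ z, N0 (S z) = N1 z := fun z => e0.apply_symm_apply _
  have h1 : ∀ z, γ (0, J (S z)) = TD p K n Δ.θ (γ (0, J z)) := by
    intro z
    refine rel (M := MM Δ A B) (M' := MM Δ A' B') rfl γ h.toLinearMap hc 1 _ _ (V_ext ?_ ?_)
    · intro y; simp
    · simp only [T_snd, Mx_J]
      exact congrArg J (hS z)
  have h2 : ∀ m z, γ (0, J ((S ^ m) z)) = TD p K n (Δ.θ ^ m) (γ (0, J z)) := by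
    intro m z
    induction m with
    | zero => simp
    | succ m ih => rw [pow_succ', End.mul_apply, h1, ih, TD_TD, ← pow_succ']
  have hJ : ∀ z z' : Fin 3 → K, γ (0, J z) = γ (0, J z') → z = z' := by
    intro z z' hz
    have := congrFun (congrArg Prod.snd (γ.injective hz)) j0
    ext i
    fin_cases i
    · exact congrFun this 3
    · exact congrFun this 4
    · exact congrFun this 5
  have h3 : ∀ m, Δ.θ ^ m = Δ.θ → S ^ m = S := fun m hm => LinearMap.ext fun z =>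
    hJ _ _ (by rw [h2, hm, h1])
  obtain ⟨t, z, hz, ht⟩ := exists_eig S (h3 _ (by
    ext i
    have := Fintype.ofFinite K
    rw [Nat.card_eq_fintype_card, Pi.pow_apply, FiniteField.pow_card]))
  have h4 : ∀ m, (S ^ m) z = t ^ m • z := by
    intro m
    induction m with
    | zero => simp
    | succ m ih => rw [pow_succ', End.mul_apply, ih, map_smul, ht, smul_smul, ← pow_succ]
  have htM : t ^ p ^ Δ.M = t := by
    have := h4 (p ^ Δ.M)
    rw [h3 _ (funext Δ.θ_M), ht] at this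
    exact (smul_left_injective K hz this).symm
  have htp : t ^ p ≠ t := by
    intro h0
    have h5 := h2 p z
    rw [h4, h0, ← ht, h1] at h5
    have h6 := TD_eq_zero (fun i => (Δ.θ_one i).symm) h5
    apply hz
    apply hJ
    rw [h6]
    have : (J (0 : Fin 3 → K) : Fin n → Fin 6 → K) = 0 := by ext j i; fin_cases i <;> simp [J]
    rw [this]
    exact (map_zero γ).symm
  obtain ⟨σ, hσ, hσ'⟩ := exists_frob (p := p) (K := K) Δ.M
  have hfix : ∀ a b : ZMod p, (algebraMap (ZMod p) K a - t * algebraMap (ZMod p) K b) ^ p ^ Δ.M =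
      algebraMap (ZMod p) K a - t * algebraMap (ZMod p) K b := by
    intro a b
    rw [← hσ, map_sub, map_mul, hσ', hσ', hσ, htM]
  have h7 : algebraMap (ZMod p) K (x' 2) - t * algebraMap (ZMod p) K (x 2) = 0 := by
    refine cub Δ (hfix (x' 0) (x 0)) (hfix (x' 1) (x 1)) (hfix _ _) 3 4 5 ?_
    by_contra hne
    apply hz
    refine N3_ker Δ ?_ hne
    have h8 := hS z
    rw [ht, map_smul] at h8
    ext i
    have h9 := congrFun h8 i
    fin_cases i <;> simp [N0, N1, N3] at h9 ⊢ <;> linear_combination -h9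
  have h10 : x 2 = 0 := by
    by_contra hne
    apply htp
    have : t = algebraMap (ZMod p) K (x' 2 / x 2) := by
      rw [map_div₀, eq_div_iff ((_root_.map_ne_zero _).2 hne)]
      linear_combination -h7
    rw [this, ← map_pow, ZMod.pow_card]
  rw [h10, map_zero, mul_zero, sub_zero, map_eq_zero] at h7
  exact ⟨h10, h7⟩

theorem step2 {ρ : Fin 6 → K} (hρ : ∀ i, ρ i ^ p ^ Δ.d i = ρ i)
    (h1 : ∀ v, γ (TD p K n ρ v) = TD p K n Δ.θ (γ v)) (i : Fin 6) (v : VV p K n) :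
    γ (TD p K n (Pi.single i 1) v) = TD p K n (Pi.single i 1) (γ v) := by
  have h2 : ∀ m v, γ (TD p K n (ρ ^ m) v) = TD p K n (Δ.θ ^ m) (γ v) := by
    intro m v
    induction m with
    | zero => simp
    | succ m ih => rw [pow_succ', ← TD_TD, h1, ih, TD_TD, ← pow_succ']
  have h3 : ∀ i j v, j ≠ i →
      TD p K n (Pi.single j 1) (γ (TD p K n (Pi.single i 1) v)) = 0 := by
    intro i j v hij
    have h4 := h2 (p ^ Δ.d i) (TD p K n (Pi.single i 1) v)
    have h5 : ρ ^ p ^ Δ.d i * Pi.single i 1 = ρ * Pi.single i 1 := by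
      ext k
      by_cases hk : k = i
      · subst hk; simp [hρ]
      · simp [hk]
    rw [TD_TD, h5, ← TD_TD, h1] at h4
    set w := γ (TD p K n (Pi.single i 1) v)
    have h6 : Δ.θ j ^ p ^ Δ.d i - Δ.θ j ≠ 0 :=
      sub_ne_zero.2 fun h0 => hij ((Δ.θ_fix i j).1 h0).symm
    have h7 : (Pi.single j 1 : Fin 6 → K) =
        Pi.single j (Δ.θ j ^ p ^ Δ.d i - Δ.θ j)⁻¹ * (Δ.θ ^ p ^ Δ.d i - Δ.θ) := by
      ext k
      by_cases hk : k = j
      · subst hk; simp [h6]
      · simp [hk]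
    rw [h7, ← TD_TD, map_sub (TD p K n), LinearMap.sub_apply, h4, sub_self, map_zero]
  have h8 : ∀ i v, TD p K n (Pi.single i 1) (γ (TD p K n (Pi.single i 1) v)) =
      γ (TD p K n (Pi.single i 1) v) := by
    intro i v
    conv_rhs => rw [← blocks (γ _)]
    rw [Finset.sum_eq_single i (fun j _ hj => h3 i j v hj) (by simp)]
  conv_rhs => rw [← blocks v, map_sum, map_sum]
  rw [Finset.sum_eq_single i (fun j _ hj => h3 j i v hj.symm) (by simp), h8]

end Pool.Agent.P.MP_0b48ca_al.W
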