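import Pool.Agent.P.MP_0b48ca_al.W.Core1

/-! Rigidity, second part: a pseudo-isometry comes from a simultaneous similarity. -/

namespace Pool.Agent.P.MP_0b48ca_al.W

open Function Module

variable {p : ℕ} [hp : Fact p.Prime] {K : Type} [Field K] [Algebra (ZMod p) K] (Δ : Data p K)
  {n : ℕ}

/-- The successor in the two oriented cycles. -/
def nx : Fin 6 → Fin 6 := ![1, 2, 0, 4, 5, 3]

/-- The weights of the edges of the cycles. -/
def wt : Fin 6 → K := ![1, 1, Δ.c, 1, 1, Δ.c]

theorem c_ne : Δ.c ≠ 0 := fun h => Δ.c_M (by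
  rw [h, zero_pow (pow_ne_zero _ hp.out.ne_zero)])

theorem wt_ne (i : Fin 6) : wt Δ i ≠ 0 := by
  fin_cases i <;> simp [wt, c_ne]

theorem edge_nx (A B : Matrix (Fin n) (Fin n) (ZMod p)) (i : Fin 6) (y : Fin n → Fin 6 → K)
    (j : Fin n) : M2 Δ A B (D p n (Pi.single i 1) y) j (nx i) = wt Δ i * y j i := by
  rw [M2_apply]
  fin_cases i <;> simp [nx, wt]

theorem nonedge (A B : Matrix (Fin n) (Fin n) (ZMod p)) (i : Fin 6) (y : Fin n → Fin 6 → K) :
    D p n (Pi.single i 1) (M2 Δ A B (D p n (Pi.single (nx i) 1) y)) = 0 := by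
  ext j k
  by_cases hk : k = i
  · subst hk
    rw [D_apply, M2_apply]
    fin_cases k <;> simp [nx]
  · simp [hk]

theorem nonedge0 (A B : Matrix (Fin n) (Fin n) (ZMod p)) (y : Fin n → Fin 6 → K) :
    D p n (Pi.single 0 1) (M2 Δ A B (D p n (Pi.single 0 1) y)) = 0 := by
  ext j k
  by_cases hk : k = 0
  · subst hk
    rw [D_apply, M2_apply]
    simp
  · simp [hk]

theorem D_comm (κ κ' : Fin 6 → K) (y : Fin n → Fin 6 → K) :
    D p n κ (D p n κ' y) = D p n κ' (D p n κ y) := by
  ext j i; simp [mul_left_comm]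

theorem TD_idem (i : Fin 6) (v : VV p K n) :
    TD p K n (Pi.single i 1) (TD p K n (Pi.single i 1) v) = TD p K n (Pi.single i 1) v := by
  rw [TD_TD, ← Pi.single_mul, mul_one]

variable {A B A' B' : Matrix (Fin n) (Fin n) (ZMod p)} {γ : VV p K n ≃ₗ[ZMod p] VV p K n}

theorem step4 {lam : Fin 6 → K}
    (hb : ∀ i v, γ (TD p K n (Pi.single i 1) v) = TD p K n (Pi.single i 1) (γ v))
    (h2 : ∀ v, γ (TD p K n lam (T (M2 Δ A B) v)) = T (M2 Δ A' B') (γ v)) :
    (∀ y, (γ (0, y)).1 = 0) ∧ ∀ φ, (γ (φ, 0)).2 = 0 := by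
  constructor
  · intro y
    have key : ∀ i, (γ (TD p K n (Pi.single (nx i) 1) (0, y))).1 = 0 := by
      intro i
      set v : VV p K n := TD p K n (Pi.single (nx i) 1) (0, y) with hv
      have h3 : TD p K n (Pi.single i 1) (T (M2 Δ A' B') (γ v)) = 0 := by
        rw [← h2, ← hb, ← map_zero γ]
        congr 1
        refine V_ext (fun z => by simp [hv]) ?_
        simp only [hv, TD_snd, T_snd, Prod.snd_zero]
        rw [D_comm, nonedge, map_zero]
      have h4 : ∀ z, (γ v).1 z = (γ v).1 (D p n (Pi.single (nx i) 1) z) := by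
        intro z
        rw [← TD_fst, ← hb, hv, TD_idem]
      refine LinearMap.ext fun z => ?_
      have h5 := LinearMap.congr_fun (congrArg Prod.fst h3)
        (fun j _ => (wt Δ i)⁻¹ * z j (nx i))
      simp only [TD_fst, T_fst, Prod.fst_zero] at h5
      rw [h4] at h5
      rw [h4]
      refine Eq.trans ?_ h5
      congr 1
      ext j k
      by_cases hk : k = nx i
      · subst hk
        rw [D_apply, D_apply, edge_nx, mul_inv_cancel_left₀ (wt_ne Δ i)]
      · simp [hk]
    have hs : ∀ k, ∃ i, nx i = k := by decide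
    rw [← blocks (0, y), map_sum, Prod.fst_sum]
    refine Finset.sum_eq_zero fun k _ => ?_
    obtain ⟨i, rfl⟩ := hs k
    exact key i
  · intro φ
    rw [← blocks (φ, 0), map_sum, Prod.snd_sum]
    refine Finset.sum_eq_zero fun i _ => ?_
    set v : VV p K n := TD p K n (Pi.single i 1) (φ, 0) with hv
    have h3 : TD p K n (Pi.single (nx i) 1) (T (M2 Δ A' B') (γ v)) = 0 := by
      rw [← h2, ← hb, ← map_zero γ]
      congr 1
      refine V_ext (fun z => ?_) (by simp [hv])
      simp only [hv, TD_fst, T_fst, Prod.fst_zero]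
      rw [D_comm lam, nonedge, map_zero, LinearMap.zero_apply]
    have h4 : (γ v).2 = D p n (Pi.single i 1) (γ v).2 := by
      rw [← TD_snd, ← hb, hv, TD_idem]
    ext j k
    by_cases hk : k = i
    · subst hk
      have h5 := congrFun (congrFun (congrArg Prod.snd h3) j) (nx k)
      simp only [TD_snd, T_snd, D_apply, Pi.single_eq_same, one_mul, Prod.snd_zero,
        Pi.zero_apply] at h5
      rw [h4, edge_nx] at h5
      exact (mul_eq_zero.1 h5).resolve_left (wt_ne Δ k)
    · rw [h4]; simp [hk]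

variable (p n) in
/-- The inclusion of a block. -/
def inc (i : Fin 6) : (Fin n → K) →ₗ[ZMod p] (Fin n → Fin 6 → K) where
  toFun z j := Pi.single i (z j)
  map_add' y z := by ext j k; simp [Pi.single_add]
  map_smul' a y := by ext j k; simp [Pi.single_smul]

theorem inc_apply (i : Fin 6) (z : Fin n → K) (j : Fin n) :
    inc p n i z j = Pi.single i (z j) := rfl

theorem D_inc (i : Fin 6) (y : Fin n → Fin 6 → K) :
    D p n (Pi.single i 1) y = inc p n i fun j => y j i := by
  ext j k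
  by_cases hk : k = i
  · subst hk; simp [inc_apply]
  · simp [inc_apply, hk]

theorem step5 (j0 : Fin n) {α : End (ZMod p) (Fin n → Fin 6 → K)} (hα : Injective α)
    {lam ρ : Fin 6 → K} (hl : lam 1 = 1 → lam = 1)
    (hb : ∀ i y, α (D p n (Pi.single i 1) y) = D p n (Pi.single i 1) (α y))
    (h1 : ∀ y, α (D p n ρ y) = D p n Δ.θ (α y))
    (h2 : ∀ y, α (D p n lam (M2 Δ A B y)) = M2 Δ A' B' (α y)) :
    lam 1 = 1 ∧ ρ 0 = Δ.θ 0 ∧ ∃ P : Matrix (Fin n) (Fin n) (ZMod p), IsUnit P ∧ P * A = A' * P ∧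
      P * B = B' * P ∧ ∀ y, α y = tens 1 P y := by
  let a : Fin 6 → (Fin n → K) →ₗ[ZMod p] (Fin n → K) := fun i =>
    (LinearMap.pi fun j => (LinearMap.proj i).comp (LinearMap.proj j)).comp (α.comp (inc p n i))
  have ha : ∀ i z j, a i z j = α (inc p n i z) j i := fun _ _ _ => rfl
  have ha1 : ∀ i y j, α y j i = a i (fun j => y j i) j := by
    intro i y j
    rw [ha, ← D_inc, hb]; simp
  have ha2 : ∀ i z, α (inc p n i z) = inc p n i (a i z) := by
    intro i z
    have : inc p n i z = D p n (Pi.single i 1) (inc p n i z) := by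
      rw [D_inc]; simp [inc_apply]
    rw [this, hb, D_inc]
    rfl
  have hinj : ∀ i, Injective (a i) := by
    intro i z z' hz
    have := hα (by rw [ha2, ha2, hz] : α (inc p n i z) = α (inc p n i z'))
    ext j
    simpa [inc_apply] using congrFun (congrFun this j) i
  have hE : ∀ i i' z, a i' (fun j => lam i' * M2 Δ A B (inc p n i z) j i') =
      fun j => M2 Δ A' B' (inc p n i (a i z)) j i' := by
    intro i i' z
    ext j
    rw [← ha2, ← h2, ha1]
    simp
  have e01 : ∀ z, a 1 (fun j => lam 1 * z j) = a 0 z := fun z => by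
    simpa [M2_apply, inc_apply] using hE 0 1 z
  have e03 : ∀ z, a 3 (fun j => lam 3 * z j) = a 0 z := fun z => by
    simpa [M2_apply, inc_apply] using hE 0 3 z
  have e13 : ∀ z, a 3 (fun j => lam 3 * z j) = a 1 z := fun z => by
    simpa [M2_apply, inc_apply] using hE 1 3 z
  have hl1 : lam 1 = 1 := by
    have := hinj 1 ((e01 1).trans ((e03 1).symm.trans (e13 1)))
    simpa using congrFun this j0
  obtain rfl := hl hl1
  simp only [Pi.one_apply, one_mul] at hE e01 e03
  have e12 : ∀ z, a 2 z = a 0 z := fun z => by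
    rw [← e01]; simpa [M2_apply, inc_apply] using hE 1 2 z
  have e34 : ∀ z, a 4 z = a 0 z := fun z => by
    rw [← e03]; simpa [M2_apply, inc_apply] using hE 3 4 z
  have e45 : ∀ z, a 5 z = a 0 z := fun z => by
    rw [← e34]; simpa [M2_apply, inc_apply] using hE 4 5 z
  have eall : ∀ i z, a i z = a 0 z := by
    intro i z
    fin_cases i
    exacts [rfl, e01 z, e12 z, e03 z, e34 z, e45 z]
  simp only [eall] at hE ha1
  have ec : ∀ z, a 0 (Δ.c • z) = Δ.c • a 0 z := fun z => by
    have := hE 2 0 z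
    simp [M2_apply, inc_apply] at this
    exact this
  have eK : ∀ (κ : K) z, a 0 (κ • z) = κ • a 0 z := by
    intro κ z
    by_cases hκ : κ = 0
    · simp [hκ]
    obtain ⟨m, rfl⟩ := Δ.c_gen κ hκ
    clear hκ
    induction m with
    | zero => simp
    | succ m ih => rw [pow_succ', mul_smul, ec, ih, mul_smul]
  have eπ : ∀ z, a 0 (fun j => algebraMap (ZMod p) K (Δ.π (z j))) =
      fun j => algebraMap (ZMod p) K (Δ.π (a 0 z j)) := fun z => by
    simpa [M2_apply, inc_apply] using hE 1 4 z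
  have eA : ∀ z, a 0 (fun j => ∑ j', A j j' • z j') = fun j => ∑ j', A' j j' • a 0 z j' :=
    fun z => by simpa [M2_apply, inc_apply] using hE 0 4 z
  have eB : ∀ z, a 0 (fun j => ∑ j', B j j' • z j') = fun j => ∑ j', B' j j' • a 0 z j' :=
    fun z => by simpa [M2_apply, inc_apply] using hE 0 5 z
  let P : Matrix (Fin n) (Fin n) (ZMod p) := Matrix.of fun j j' => Δ.π (a 0 (Pi.single j' 1) j)
  have hP : ∀ j j', algebraMap (ZMod p) K (P j j') = a 0 (Pi.single j' 1) j := by
    intro j j'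
    have h3 := congrFun (eπ (Pi.single j' 1)) j
    have h4 : (fun j => algebraMap (ZMod p) K (Δ.π ((Pi.single j' 1 : Fin n → K) j))) =
        Pi.single j' 1 := by
      ext k
      by_cases hk : k = j'
      · subst hk; simp [Δ.π_one]
      · simp [hk]
    rw [h4] at h3
    exact h3.symm
  have ha0 : ∀ z j, a 0 z j = ∑ j', P j j' • z j' := by
    intro z j
    conv_lhs => rw [← Finset.univ_sum_single z, map_sum, Finset.sum_apply]
    refine Finset.sum_congr rfl fun j' _ => ?_
    rw [Algebra.smul_def, hP, mul_comm, ← smul_eq_mul, ← Pi.smul_apply, ← eK, ← Pi.single_smul,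
      smul_eq_mul, mul_one]
  have hcomm : ∀ {C C' : Matrix (Fin n) (Fin n) (ZMod p)},
      (∀ z, a 0 (fun j => ∑ j', C j j' • z j') = fun j => ∑ j', C' j j' • a 0 z j') →
      P * C = C' * P := by
    intro C C' hC
    ext j j'
    apply (algebraMap (ZMod p) K).injective
    have := congrFun (hC (Pi.single j' 1)) j
    simp only [ha0] at this
    simpa [Matrix.mul_apply, Algebra.smul_def, Pi.single_apply] using this
  refine ⟨rfl, ?_, P, ?_, hcomm eA, hcomm eB, fun y => ?_⟩
  · have h4 : a 0 (ρ 0 • 1) = a 0 (Δ.θ 0 • 1) := by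
      ext j
      have h3 := congrFun (congrFun (h1 (inc p n 0 1)) j) 0
      rw [ha1, D_apply, ha1] at h3
      rw [eK (Δ.θ 0)]
      simp only [D_apply, inc_apply, Pi.single_eq_same] at h3
      exact h3
    simpa using congrFun (hinj 0 h4) j0
  · rw [← Matrix.mulVec_injective_iff_isUnit]
    intro v w hvw
    have h3 : a 0 (fun j => algebraMap (ZMod p) K (v j)) =
        a 0 (fun j => algebraMap (ZMod p) K (w j)) := by
      ext j
      have := congrArg (algebraMap (ZMod p) K) (congrFun hvw j)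
      simpa [ha0, Matrix.mulVec, dotProduct, Algebra.smul_def] using this
    ext j
    exact (algebraMap (ZMod p) K).injective (congrFun (hinj 0 h3) j)
  · ext j i
    rw [ha1, ha0, tens_apply, Finset.sum_apply]
    rfl

theorem core [Finite K] (j0 : Fin n) {h : (Fin 3 → ZMod p) ≃ₗ[ZMod p] (Fin 3 → ZMod p)}
    (hc : ∀ u v, om (MM Δ A' B') (γ u) (γ v) = h (om (MM Δ A B) u v)) :
    ∃ (P : Matrix (Fin n) (Fin n) (ZMod p)) (μ : ZMod p), IsUnit P ∧ μ ≠ 0 ∧ P * A = A' * P ∧
      P * B = B' * P ∧ (∀ w, h w = μ • w) ∧ (∀ y, γ (0, y) = (0, tens 1 P y)) ∧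
      ∀ φ, (γ (φ, 0)).2 = 0 := by
  obtain ⟨h02, h12⟩ := step1 Δ j0 hc
  set x0 := hm h.toLinearMap 0 with hx0
  set x1 := hm h.toLinearMap 1 with hx1
  set x2 := hm h.toLinearMap 2 with hx2
  have hk0 : ∀ i, kap Δ x0 i ≠ 0 := kap_ne Δ (hm_ne h 0) h02
  have hR : ∀ l v, γ (TD p K n (kap Δ x0)⁻¹ (T (Mx (MM Δ A B) (hm h.toLinearMap l)) v)) =
      T (MM Δ A' B' l) (γ v) := by
    intro l v
    refine rel (M := MM Δ A B) (M' := MM Δ A' B') rfl γ h.toLinearMap hc l _ _ ?_
    rw [T_Mx, ← hx0, h02, zero_smul, add_zero, TD_inv hk0]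
  have hR1 : ∀ v, γ (TD p K n ((kap Δ x0)⁻¹ * kap Δ x1) v) = TD p K n Δ.θ (γ v) := by
    intro v
    have := hR 1 v
    rwa [T_Mx, ← hx1, h12, zero_smul, add_zero, TD_TD] at this
  have hb := step2 Δ (fun i => by
    obtain ⟨σ, hσ, hσ'⟩ := exists_frob (p := p) (K := K) (Δ.d i)
    have hθ : σ (Δ.θ i) = Δ.θ i := by rw [hσ, (Δ.θ_fix i i).2 rfl]
    rw [← hσ]
    simp only [Pi.mul_apply, Pi.inv_apply, kap, map_mul, map_inv₀, map_add, hσ', hθ]) hR1
  have hR2 : ∀ v, γ (TD p K n (kap Δ x0)⁻¹ (TD p K n (kap Δ x2) v + x2 2 • T (M2 Δ A B) v)) =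
      T (M2 Δ A' B') (γ v) := by
    intro v
    have := hR 2 v
    rwa [T_Mx] at this
  have hk2 : kap Δ x2 0 = 0 := by
    have h3 : TD p K n (Pi.single 0 1) (T (M2 Δ A' B')
        (γ (TD p K n (Pi.single 0 1) (0, 1)))) = 0 := by
      rw [hb]
      exact V_ext (fun z => by simp [nonedge0]) (by simp [nonedge0])
    rw [← hR2, ← hb, map_eq_zero_iff _ γ.injective] at h3
    have h4 := congrFun (congrFun (congrArg Prod.snd h3) j0) 0
    simpa [M2_apply, hk0] using h4
  obtain ⟨h20, h21⟩ := lin_eq Δ hk2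
  let lam : Fin 6 → K := fun i => algebraMap (ZMod p) K (x2 2) * (kap Δ x0 i)⁻¹
  have hR3 : ∀ v, γ (TD p K n lam (T (M2 Δ A B) v)) = T (M2 Δ A' B') (γ v) := by
    intro v
    have h3 : kap Δ x2 = 0 := by ext i; simp [kap, h20, h21]
    have h4 : ∀ y : Fin n → Fin 6 → K, D p n lam y = x2 2 • D p n (kap Δ x0)⁻¹ y := by
      intro y; ext j i; simp [lam, Algebra.smul_def, mul_assoc]
    rw [← hR2, h3, map_zero, LinearMap.zero_apply, zero_add]
    congr 1
    exact V_ext (fun z => by simp [h4]) (by simp [h4])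
  obtain ⟨hY, hX⟩ := step4 Δ hb hR3
  let α : End (ZMod p) (Fin n → Fin 6 → K) :=
    (LinearMap.snd _ _ _).comp (γ.toLinearMap.comp (LinearMap.inr _ _ _))
  have hα : ∀ y, γ (0, y) = (0, α y) := fun y => Prod.ext (hY y) rfl
  have hl : lam 1 = 1 → x0 0 = x2 2 ∧ x0 1 = 0 := by
    intro h1
    have h3 : algebraMap (ZMod p) K (x2 2) = kap Δ x0 1 := by
      have := hk0 1
      simp only [lam] at h1
      field_simp at h1
      exact h1
    have := lin_eq Δ (a := x0 0 - x2 2) (b := x0 1) (i := 1) (by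
      rw [map_sub, h3, kap]; ring)
    exact ⟨sub_eq_zero.1 this.1, this.2⟩
  obtain ⟨hl1, hρ, P, hP, hA, hB, hαP⟩ := step5 Δ (A := A) (B := B) (A' := A') (B' := B') j0
    (α := α) (lam := lam) (ρ := (kap Δ x0)⁻¹ * kap Δ x1)
    (fun y y' hy => congrArg Prod.snd (γ.injective (by rw [hα, hα, hy] : γ (0, y) = γ (0, y'))))
    (fun h1 => by
      obtain ⟨h3, h4⟩ := hl h1
      ext i
      have := hk0 i
      simp only [lam, kap, h4, map_zero, zero_mul, add_zero, h3] at this ⊢
      exact mul_inv_cancel₀ this)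
    (fun i y => by
      have := congrArg Prod.snd (hb i (0, y))
      rw [hα] at this
      exact this)
    (fun y => by
      have := congrArg Prod.snd (hR1 (0, y))
      rw [hα] at this
      exact this)
    (fun y => by
      have := congrArg Prod.snd (hR3 (0, y))
      rw [hα] at this
      exact this)
  obtain ⟨h00, h01⟩ := hl hl1
  have h1x := lin_eq Δ (a := x1 0) (b := x1 1 - x0 0) (i := 0) (by
    have h3 := hk0 0
    rw [Pi.mul_apply, Pi.inv_apply, inv_mul_eq_iff_eq_mul₀ h3] at hρ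
    simp only [kap, h01, map_zero, zero_mul, add_zero] at hρ
    rw [map_sub]
    linear_combination hρ)
  refine ⟨P, x0 0, hP, fun h0 => hk0 0 (by simp [kap, h0, h01]), hA, hB, fun w => ?_,
    fun y => by rw [hα, hαP], hX⟩
  ext l
  have := hm_apply h.toLinearMap w l
  fin_cases l
  · simpa [← hx0, h01, h02, mul_comm] using this
  · simpa [← hx1, h1x.1, sub_eq_zero.1 h1x.2, h12, mul_comm] using this
  · simpa [← hx2, h20, h21, ← h00, mul_comm] using this

end Pool.Agent.P.MP_0b48ca_al.W
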