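import Mathlib

/-!
Definitions for the wildness theorem: groups of class two attached to three matrices and two
vectors, isoclinism, and the similarity of framed pairs of matrices.
-/

namespace Pool.Agent.P.MP_0b48ca_al.W

open scoped commutatorElement Kronecker

/-- Generators `x i`, `y i` (`i : ι`) and `z 0`, `z 1`, `z 2`. -/
inductive Gen (ι : Type) : Type
  | x (i : ι) : Gen ι
  | y (i : ι) : Gen ι
  | z (l : Fin 3) : Gen ι

/-- The relators: the `z l` are central of order dividing `p`, the `x i` commute, the `y i`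
commute, `[x i, y j] = z 0 ^ M 0 i j * z 1 ^ M 1 i j * z 2 ^ M 2 i j`, `x i ^ p = z 0 ^ a i` and
`y i ^ p = z 0 ^ b i`. -/
def rels {p : ℕ} {ι : Type} (M : Fin 3 → Matrix ι ι (ZMod p)) (a b : ι → ZMod p) :
    Set (FreeGroup (Gen ι)) :=
  {r | (∃ (l : Fin 3) (g : Gen ι), r = ⁅FreeGroup.of (Gen.z l : Gen ι), FreeGroup.of g⁆) ∨
    (∃ l : Fin 3, r = FreeGroup.of (Gen.z l) ^ p) ∨
    (∃ i j : ι, r = ⁅FreeGroup.of (Gen.x i), FreeGroup.of (Gen.x j)⁆) ∨
    (∃ i j : ι, r = ⁅FreeGroup.of (Gen.y i), FreeGroup.of (Gen.y j)⁆) ∨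
    (∃ i j : ι, r = ⁅FreeGroup.of (Gen.x i), FreeGroup.of (Gen.y j)⁆ *
      (FreeGroup.of (Gen.z 0) ^ (M 0 i j).val * FreeGroup.of (Gen.z 1) ^ (M 1 i j).val *
        FreeGroup.of (Gen.z 2) ^ (M 2 i j).val)⁻¹) ∨
    (∃ i : ι, r = FreeGroup.of (Gen.x i) ^ p * (FreeGroup.of (Gen.z 0) ^ (a i).val)⁻¹) ∨
    (∃ i : ι, r = FreeGroup.of (Gen.y i) ^ p * (FreeGroup.of (Gen.z 0) ^ (b i).val)⁻¹)}

/-- A framed pair of matrices over `ZMod p`: two `n × n` matrices `A`, `B`, an `n × k` matrix `U`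
(that is, `k` vectors) and a `k × n` matrix `C` (that is, `k` covectors). -/
structure Framed (p k n : ℕ) : Type where
  A : Matrix (Fin n) (Fin n) (ZMod p)
  B : Matrix (Fin n) (Fin n) (ZMod p)
  U : Matrix (Fin n) (Fin k) (ZMod p)
  C : Matrix (Fin k) (Fin n) (ZMod p)

/-- The commutator matrices `1`, `R 0 ⊗ 1`, `R 1 ⊗ 1 + R 2 ⊗ A + R 3 ⊗ B` (Kronecker products). -/
def pencil {p k n : ℕ} (R : Fin 4 → Matrix (Fin k) (Fin k) (ZMod p)) (D : Framed p k n) :
    Fin 3 → Matrix (Fin k × Fin n) (Fin k × Fin n) (ZMod p) :=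
  ![1, R 0 ⊗ₖ (1 : Matrix (Fin n) (Fin n) (ZMod p)),
    R 1 ⊗ₖ (1 : Matrix (Fin n) (Fin n) (ZMod p)) + R 2 ⊗ₖ D.A + R 3 ⊗ₖ D.B]

/-- The group attached to four `k × k` matrices `R` and a framed pair `D`: generators indexed by
`Fin k × Fin n`, commutator matrices `pencil R D`, and `x (i, j) ^ p = z 0 ^ U j i`,
`y (i, j) ^ p = z 0 ^ C i j`. -/
def Grp {p k n : ℕ} (R : Fin 4 → Matrix (Fin k) (Fin k) (ZMod p)) (D : Framed p k n) : Type :=
  PresentedGroup (rels (pencil R D) (fun ij => D.U ij.2 ij.1) (fun ij => D.C ij.1 ij.2))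

/-- The group structure of the presented group. -/
instance {p k n : ℕ} (R : Fin 4 → Matrix (Fin k) (Fin k) (ZMod p)) (D : Framed p k n) :
    Group (Grp R D) :=
  (inferInstance : Group (PresentedGroup
    (rels (pencil R D) (fun ij => D.U ij.2 ij.1) (fun ij => D.C ij.1 ij.2))))

/-- Every automorphism of `G` sends each element into its own conjugacy class. -/
def AllCP (G : Type) [Group G] : Prop := ∀ α : G ≃* G, ∀ x, IsConj x (α x)

/-- The invertible matrix `P` and the unit `μ` carry the framed pair `D` to `D'`. -/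
def Carries {p k n : ℕ} (P : GL (Fin n) (ZMod p)) (μ : (ZMod p)ˣ) (D D' : Framed p k n) : Prop :=
  P.1 * D.A = D'.A * P.1 ∧ P.1 * D.B = D'.B * P.1 ∧ P.1 * D.U = D'.U ∧ D'.C * P.1 = μ.1 • D.C

/-- Isoclinism in the sense of P. Hall: isomorphisms of the central quotients and of the
commutator subgroups that are compatible with the commutator maps. -/
def Isoclinic (G H : Type) [Group G] [Group H] : Prop :=
  ∃ (α : G ⧸ Subgroup.center G ≃* H ⧸ Subgroup.center H) (β : commutator G ≃* commutator H),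
    ∀ (x y : G) (x' y' : H) (w : commutator G), α (QuotientGroup.mk x) = QuotientGroup.mk x' →
      α (QuotientGroup.mk y) = QuotientGroup.mk y' → w.1 = ⁅x, y⁆ → (β w).1 = ⁅x', y'⁆

end Pool.Agent.P.MP_0b48ca_al.W
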