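import Mathlib

/-! The finite field and the elements used in the wildness construction. -/

namespace Pool.Agent.P.MP_0b48ca_al.W

open Function Module

/-- The field data. -/
structure Data (p : ℕ) (K : Type) [Fact p.Prime] [Field K] [Algebra (ZMod p) K] where
  θ : Fin 6 → K
  c : K
  π : K →ₗ[ZMod p] ZMod p
  M : ℕ
  d : Fin 6 → ℕ
  θ_fix : ∀ i j, θ j ^ p ^ d i = θ j ↔ i = j
  θ_M : ∀ i, θ i ^ p ^ M = θ i
  θ_one : ∀ i, θ i ^ p ≠ θ i
  c_M : c ^ p ^ M ≠ c
  c_gen : ∀ κ : K, κ ≠ 0 → ∃ m : ℕ, κ = c ^ m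
  π_one : π 1 = 1

theorem pow_dvd_iff {p a e : ℕ} (hp : 1 < p) : p ^ a - 1 ∣ p ^ e - 1 ↔ a ∣ e := by
  refine ⟨fun h => ?_, Nat.pow_sub_one_dvd_pow_sub_one p⟩
  have h1 := Nat.gcd_eq_left h
  rw [Nat.pow_sub_one_gcd_pow_sub_one] at h1
  have h2 : p ^ a.gcd e = p ^ a := by
    have := Nat.one_le_pow (a.gcd e) p (by omega)
    have := Nat.one_le_pow a p (by omega)
    omega
  rw [← Nat.pow_right_injective hp h2]
  exact Nat.gcd_dvd_right a e

theorem fix_iff {K : Type} [Field K] {p a : ℕ} (hp : 1 < p) (g : Kˣ) (hg : orderOf g = p ^ a - 1)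
    (e : ℕ) : (g : K) ^ p ^ e = g ↔ a ∣ e := by
  rw [← pow_dvd_iff hp, ← hg, orderOf_dvd_iff_pow_eq_one, ← Units.val_pow_eq_pow_val,
    Units.val_inj]
  obtain ⟨m, hm⟩ : ∃ m, p ^ e = m + 1 := ⟨p ^ e - 1, by
    have := Nat.one_le_pow e p (by omega)
    omega⟩
  rw [hm, pow_succ, mul_eq_right, Nat.add_sub_cancel]

theorem exists_data (p : ℕ) [hp : Fact p.Prime] (d : ℕ) :
    ∃ (K : Type) (_ : Field K) (_ : Algebra (ZMod p) K), Finite K ∧ d ≤ finrank (ZMod p) K ∧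
      Nonempty (Data p K) := by
  let N := 332640 * (d + 2)
  have hN : N ≠ 0 := by positivity
  have h1 := hp.out.one_lt
  obtain ⟨g, hg⟩ := isCyclic_iff_exists_orderOf_eq_natCard.1
    (inferInstance : IsCyclic (GaloisField p N)ˣ)
  have hg' := hg
  rw [Nat.card_units, GaloisField.card p N hN] at hg
  have hpos : orderOf g ≠ 0 := (orderOf_pos g).ne'
  have hel : ∀ a, a ∣ N → ∃ t : GaloisField p N, ∀ e, t ^ p ^ e = t ↔ a ∣ e := by
    intro a ha
    refine ⟨(g ^ (orderOf g / (p ^ a - 1)) : (GaloisField p N)ˣ), fix_iff h1 _ ?_⟩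
    exact orderOf_pow_orderOf_div hpos (hg ▸ (pow_dvd_iff h1).2 ha)
  have hdv : ∀ i : Fin 6, 6 + i.val ∣ 332640 := by decide
  choose θ hθ using fun i : Fin 6 => hel (6 + i.val) ((hdv i).mul_right _)
  obtain ⟨π, hπ⟩ := Module.Projective.exists_dual_eq_one (ZMod p)
    (one_ne_zero : (1 : GaloisField p N) ≠ 0)
  refine ⟨GaloisField p N, inferInstance, inferInstance, inferInstance, ?_, ⟨{
    θ := θ, c := g, π := π, M := 332640, d := fun i => 6 + i.val
    θ_fix := fun i j => ?_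
    θ_M := fun i => (hθ i _).2 (hdv i)
    θ_one := fun i h => ?_
    c_M := fun h => ?_
    c_gen := fun κ hκ => ?_
    π_one := hπ }⟩⟩
  · rw [GaloisField.finrank p hN]
    omega
  · rw [hθ]
    revert i j
    decide
  · have := (hθ i 1).1 (by rwa [pow_one])
    have := Nat.le_of_dvd one_pos this
    omega
  · have := Nat.le_of_dvd (by norm_num) ((fix_iff h1 g hg _).1 h)
    omega
  · have : Units.mk0 κ hκ ∈ Subgroup.zpowers g := by
      rw [Subgroup.eq_top_of_card_eq (Subgroup.zpowers g) (by rw [Nat.card_zpowers, hg'])]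
      trivial
    obtain ⟨m, hm⟩ := mem_powers_iff_mem_zpowers.2 this
    exact ⟨m, (congrArg Units.val hm).symm⟩

end Pool.Agent.P.MP_0b48ca_al.W
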