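import Pool.Agent.P.MP_0b48ca_al.G.Model
import Pool.Agent.P.MP_0b48ca_al.W.Defs

/-! The presented group has coordinates; isoclinism in coordinates. -/

namespace Pool.Agent.P.MP_0b48ca_al.W

open Function Module
open scoped commutatorElement
open Pool.Agent.P.MP_0b48ca_al.G (Ext Compat)

theorem iso_of_frame {p : ℕ} [NeZero p] {ι : Type} (M : Fin 3 → Matrix ι ι (ZMod p))
    (a b : ι → ZMod p) {H V : Type} [Group H]
    [AddCommGroup V] [Module (ZMod p) V] {ω : V →ₗ[ZMod p] V →ₗ[ZMod p] (Fin 3 → ZMod p)}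
    {q : V → (Fin 3 → ZMod p)} (E : Ext p H V (Fin 3 → ZMod p) ω q)
    (e : Basis (ι ⊕ ι) (ZMod p) V)
    (hxx : ∀ i j, ω (e (.inl i)) (e (.inl j)) = 0)
    (hyy : ∀ i j, ω (e (.inr i)) (e (.inr j)) = 0)
    (hxy : ∀ i j, ω (e (.inl i)) (e (.inr j)) = fun l => M l i j)
    (hx : ∀ i, q (e (.inl i)) = Pi.single 0 (a i))
    (hy : ∀ i, q (e (.inr i)) = Pi.single 0 (b i)) :
    Nonempty (PresentedGroup (rels M a b) ≃* H) := by
  choose s hs using E.ν_surj
  let φ0 : Gen ι → H := fun g => match g with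
    | .x i => s (e (.inl i))
    | .y i => s (e (.inr i))
    | .z l => E.ι (Pi.single l 1)
  have hcm : ∀ x y : H, ⁅x, y⁆ = E.ι (ω (E.ν x) (E.ν y)) := by
    intro x y
    rw [commutatorElement_def, E.comm x y]; group
  have hz : ∀ (l : Fin 3) (t : ZMod p), E.ι (Pi.single l 1) ^ t.val = E.ι (Pi.single l t) := by
    intro l t
    rw [← E.ι_nsmul, ← Pi.single_smul]; simp
  have h3 : ∀ w : Fin 3 → ZMod p, E.ι (Pi.single 0 1) ^ (w 0).val *
      E.ι (Pi.single 1 1) ^ (w 1).val * E.ι (Pi.single 2 1) ^ (w 2).val = E.ι w := by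
    intro w
    rw [hz, hz, hz, ← E.ι_add, ← E.ι_add]
    congr 1
    ext l
    fin_cases l <;> simp
  have hrel : ∀ r ∈ rels M a b, FreeGroup.lift φ0 r = 1 := by
    rintro r (⟨l, g, rfl⟩ | ⟨l, rfl⟩ | ⟨i, j, rfl⟩ | ⟨i, j, rfl⟩ | ⟨i, j, rfl⟩ |
      ⟨i, rfl⟩ | ⟨i, rfl⟩)
    · simp [map_commutatorElement, hcm, φ0, E.ν_ι, E.ι_zero]
    · simp only [map_pow, FreeGroup.lift_apply_of, φ0]
      rw [← E.ι_nsmul, G.psmul, E.ι_zero]
    · simp [map_commutatorElement, hcm, φ0, hs, hxx, E.ι_zero]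
    · simp [map_commutatorElement, hcm, φ0, hs, hyy, E.ι_zero]
    · simp only [map_mul, map_inv, map_commutatorElement, map_pow, FreeGroup.lift_apply_of, φ0,
        hcm, hs, hxy]
      rw [h3 fun l => M l i j, mul_inv_cancel]
    · simp only [map_mul, map_inv, map_pow, FreeGroup.lift_apply_of, φ0, hz, E.pow, hs, hx,
        mul_inv_cancel]
    · simp only [map_mul, map_inv, map_pow, FreeGroup.lift_apply_of, φ0, hz, E.pow, hs, hy,
        mul_inv_cancel]
  let φ : PresentedGroup (rels M a b) →* H := PresentedGroup.toGroup hrel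
  have hφ : ∀ g, φ (PresentedGroup.of g) = φ0 g := fun g => PresentedGroup.toGroup.of hrel
  let z : Fin 3 → PresentedGroup (rels M a b) := fun l => PresentedGroup.of (Gen.z l)
  have one : ∀ r ∈ rels M a b, PresentedGroup.mk (rels M a b) r = 1 := fun r hr =>
    PresentedGroup.one_of_mem hr
  have cen : ∀ t : PresentedGroup (rels M a b), (∀ g, Commute t (PresentedGroup.of g)) →
      ∀ x, Commute t x := by
    intro t ht x
    exact PresentedGroup.generated_by (rels M a b) (Subgroup.centralizer {t})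
      (fun g => Subgroup.mem_centralizer_singleton_iff.2 (ht g).symm) x t rfl
  have zc : ∀ l x, Commute (z l) x := fun l => cen (z l) fun g =>
    commutatorElement_eq_one_iff_commute.1 (by
      have := one _ (Or.inl ⟨l, g, rfl⟩)
      rwa [map_commutatorElement] at this)
  have zp : ∀ l, z l ^ p = 1 := by
    intro l
    have := one _ (Or.inr (Or.inl ⟨l, rfl⟩))
    rwa [map_pow] at this
  have zadd : ∀ l (t u : ZMod p), z l ^ (t + u).val = z l ^ t.val * z l ^ u.val := by
    intro l t u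
    rw [ZMod.val_add, ← pow_eq_pow_mod _ (zp l), pow_add]
  let ζ : Multiplicative (Fin 3 → ZMod p) →* PresentedGroup (rels M a b) := MonoidHom.mk'
    (fun w => z 0 ^ (w.toAdd 0).val * z 1 ^ (w.toAdd 1).val * z 2 ^ (w.toAdd 2).val) (by
      intro v w
      simp only [toAdd_mul, Pi.add_apply, zadd]
      rw [((zc 2 _).pow_left _).mul_mul_mul_comm, ((zc 1 _).pow_left _).mul_mul_mul_comm])
  have hφζ : ∀ w, φ (ζ w) = E.ι w.toAdd := by
    intro w
    simp only [ζ, MonoidHom.mk'_apply, map_mul, map_pow, z, hφ, φ0, h3]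
  let Z : Subgroup (PresentedGroup (rels M a b)) := ζ.range
  have zZ : ∀ l, z l ∈ Z := by
    intro l
    have h1 : ∀ l, z l ^ (1 : ZMod p).val = z l := fun l => by
      rw [ZMod.val_one_eq_one_mod, ← pow_eq_pow_mod _ (zp l), pow_one]
    refine ⟨Multiplicative.ofAdd (Pi.single l 1), ?_⟩
    fin_cases l <;> simp [ζ, h1]
  have Zc : Z ≤ Subgroup.center _ := by
    rintro _ ⟨w, rfl⟩
    have : ∀ l n, z l ^ n ∈ Subgroup.center _ := fun l n =>
      Subgroup.pow_mem _ (Subgroup.mem_center_iff.2 fun x => (zc l x).symm) n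
    exact Subgroup.mul_mem _ (Subgroup.mul_mem _ (this _ _) (this _ _)) (this _ _)
  have ZN : Z.Normal := ⟨fun t ht x => by
    rwa [Subgroup.mem_center_iff.1 (Zc ht) x, mul_inv_cancel_right]⟩
  have mkone : ∀ t ∈ Z, (QuotientGroup.mk' Z t : PresentedGroup (rels M a b) ⧸ Z) = 1 :=
    fun t ht => (QuotientGroup.eq_one_iff _).2 ht
  have qgen : ∀ S : Subgroup (PresentedGroup (rels M a b) ⧸ Z),
      (∀ g, QuotientGroup.mk' Z (PresentedGroup.of g) ∈ S) → ∀ x, x ∈ S := by
    intro S hS x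
    obtain ⟨x, rfl⟩ := QuotientGroup.mk'_surjective Z x
    exact PresentedGroup.generated_by (rels M a b) (S.comap (QuotientGroup.mk' Z)) hS x
  have qc0 : ∀ g g', Commute (QuotientGroup.mk' Z (PresentedGroup.of g))
      (QuotientGroup.mk' Z (PresentedGroup.of g')) := by
    have hxy' : ∀ i j, Commute (QuotientGroup.mk' Z (PresentedGroup.of (Gen.x i)))
        (QuotientGroup.mk' Z (PresentedGroup.of (Gen.y j))) := by
      intro i j
      apply commutatorElement_eq_one_iff_commute.1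
      have := one _ (Or.inr (Or.inr (Or.inr (Or.inr (Or.inl ⟨i, j, rfl⟩)))))
      rw [map_mul, map_inv, mul_inv_eq_one, map_commutatorElement] at this
      rw [← map_commutatorElement]
      apply mkone
      change ⁅PresentedGroup.mk _ _, PresentedGroup.mk _ _⁆ ∈ Z
      rw [this, map_mul, map_mul, map_pow, map_pow, map_pow]
      exact Z.mul_mem (Z.mul_mem (Z.pow_mem (zZ 0) _) (Z.pow_mem (zZ 1) _)) (Z.pow_mem (zZ 2) _)
    intro g g'
    rcases g with i | i | l
    · rcases g' with j | j | l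
      · apply Commute.map
        apply commutatorElement_eq_one_iff_commute.1
        have := one _ (Or.inr (Or.inr (Or.inl ⟨i, j, rfl⟩)))
        rwa [map_commutatorElement] at this
      · exact hxy' i j
      · exact (zc l _).symm.map _
    · rcases g' with j | j | l
      · exact (hxy' j i).symm
      · apply Commute.map
        apply commutatorElement_eq_one_iff_commute.1
        have := one _ (Or.inr (Or.inr (Or.inr (Or.inl ⟨i, j, rfl⟩))))
        rwa [map_commutatorElement] at this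
      · exact (zc l _).symm.map _
    · exact (zc l _).map _
  have qc : ∀ u v : PresentedGroup (rels M a b) ⧸ Z, u * v = v * u := by
    intro u v
    have h1 : ∀ c, Commute u (QuotientGroup.mk' Z (PresentedGroup.of c)) := fun c =>
      (qgen (Subgroup.centralizer {QuotientGroup.mk' Z (PresentedGroup.of c)})
        (fun d => Subgroup.mem_centralizer_singleton_iff.2 (qc0 d c)) u _ rfl).symm
    exact qgen (Subgroup.centralizer {u})
      (fun d => Subgroup.mem_centralizer_singleton_iff.2 (h1 d).symm) v u rfl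
  let : CommGroup (PresentedGroup (rels M a b) ⧸ Z) :=
    { (inferInstance : Group (PresentedGroup (rels M a b) ⧸ Z)) with mul_comm := qc }
  have qp : ∀ u : PresentedGroup (rels M a b) ⧸ Z, u ^ p = 1 := by
    intro u
    refine qgen (powMonoidHom p).ker (fun c => ?_) u
    rw [MonoidHom.mem_ker, powMonoidHom_apply, ← map_pow]
    apply mkone
    rcases c with i | i | l
    · have := one _ (Or.inr (Or.inr (Or.inr (Or.inr (Or.inr (Or.inl ⟨i, rfl⟩))))))
      rw [map_mul, map_inv, mul_inv_eq_one, map_pow, map_pow] at this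
      change (PresentedGroup.mk _ _) ^ p ∈ Z
      rw [this]
      exact Z.pow_mem (zZ 0) _
    · have := one _ (Or.inr (Or.inr (Or.inr (Or.inr (Or.inr (Or.inr ⟨i, rfl⟩))))))
      rw [map_mul, map_inv, mul_inv_eq_one, map_pow, map_pow] at this
      change (PresentedGroup.mk _ _) ^ p ∈ Z
      rw [this]
      exact Z.pow_mem (zZ 0) _
    · exact Z.pow_mem (zZ l) _
  obtain ⟨ψ, ψadd, ψe⟩ : ∃ ψ : V → PresentedGroup (rels M a b) ⧸ Z,
      (∀ u v, ψ (u + v) = ψ u * ψ v) ∧
      ∀ i, ψ (e i) = QuotientGroup.mk' Z (PresentedGroup.of (Sum.elim Gen.x Gen.y i)) := by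
    let : Module (ZMod p) (Additive (PresentedGroup (rels M a b) ⧸ Z)) :=
      AddCommGroup.zmodModule (by
        intro u
        apply Additive.toMul.injective
        rw [toMul_nsmul, qp, toMul_zero])
    let ψ := e.constr (ZMod p) (fun i => Additive.ofMul
      (QuotientGroup.mk' Z (PresentedGroup.of (Sum.elim Gen.x Gen.y i))))
    refine ⟨fun v => (ψ.toAddMonoidHom v).toMul, fun u v => ?_, fun i => ?_⟩
    · beta_reduce
      rw [map_add, toMul_add]
    · exact congrArg Additive.toMul (e.constr_basis (ZMod p) _ i)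
  have ψ0 : ψ 0 = 1 := by
    have := ψadd 0 0
    rw [add_zero] at this
    exact left_eq_mul.mp this
  have hψ : ∀ x, ψ (E.ν (φ x)) = QuotientGroup.mk' Z x := by
    have : MonoidHom.mk' (fun x => ψ (E.ν (φ x))) (by
        intro x y; rw [map_mul, E.ν_mul, ψadd]) = QuotientGroup.mk' Z := by
      apply PresentedGroup.ext
      intro g
      rw [MonoidHom.mk'_apply, hφ]
      rcases g with i | i | l
      · simp only [φ0, hs, ψe, Sum.elim_inl]
      · simp only [φ0, hs, ψe, Sum.elim_inr]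
      · simp only [φ0, E.ν_ι, ψ0]
        exact (mkone _ (zZ l)).symm
    exact fun x => DFunLike.congr_fun this x
  refine ⟨MulEquiv.ofBijective φ ⟨?_, ?_⟩⟩
  · rw [injective_iff_map_eq_one]
    intro x hx
    have := hψ x
    rw [hx, E.ν_one, ψ0, eq_comm] at this
    obtain ⟨w, rfl⟩ := (QuotientGroup.eq_one_iff _).1 this
    rw [hφζ, ← E.ι_zero] at hx
    have h0 : w = 1 := E.ι_inj hx
    rw [h0, map_one]
  · intro m
    let S : AddSubgroup V :=
      { carrier := {v | ∃ x, E.ν (φ x) = v}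
        add_mem' := by
          rintro _ _ ⟨x, rfl⟩ ⟨y, rfl⟩
          exact ⟨x * y, by rw [map_mul, E.ν_mul]⟩
        zero_mem' := ⟨1, by rw [map_one, E.ν_one]⟩
        neg_mem' := by
          rintro _ ⟨x, rfl⟩
          exact ⟨x⁻¹, by rw [map_inv, E.ν_inv]⟩ }
    have hS : (⊤ : Submodule (ZMod p) V) ≤ AddSubgroup.toZModSubmodule p S := by
      rw [← e.span_eq, Submodule.span_le]
      rintro _ ⟨i | i, rfl⟩
      · exact ⟨PresentedGroup.of (Gen.x i), by rw [hφ]; exact hs _⟩
      · exact ⟨PresentedGroup.of (Gen.y i), by rw [hφ]; exact hs _⟩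
    obtain ⟨x, hx⟩ : E.ν m ∈ S := hS Submodule.mem_top
    obtain ⟨w, hw⟩ := E.eq_mul_of_ν_eq hx
    exact ⟨x * ζ (Multiplicative.ofAdd w), by rw [map_mul, hφζ, hw]; rfl⟩

section Iso

variable {p : ℕ} {H V W H' V' W' : Type} [Group H] [AddCommGroup V] [Module (ZMod p) V]
  [AddCommGroup W] [Module (ZMod p) W] {ω : V →ₗ[ZMod p] V →ₗ[ZMod p] W} {q : V → W}
  [Group H'] [AddCommGroup V'] [Module (ZMod p) V']
  [AddCommGroup W'] [Module (ZMod p) W'] {ω' : V' →ₗ[ZMod p] V' →ₗ[ZMod p] W'} {q' : V' → W'}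

theorem comm_eq (E : Ext p H V W ω q) (x y : H) : ⁅x, y⁆ = E.ι (ω (E.ν x) (E.ν y)) := by
  rw [commutatorElement_def, E.comm x y]; group

theorem exists_eV (E : Ext p H V W ω q) (hω : ∀ v, ω v = 0 → v = 0) :
    ∃ eV : H ⧸ Subgroup.center H ≃* Multiplicative V,
      ∀ x, eV (QuotientGroup.mk x) = Multiplicative.ofAdd (E.ν x) := by
  have hk : Subgroup.center H = E.νh.ker := by
    ext x
    rw [Subgroup.mem_center_iff, MonoidHom.mem_ker]
    exact ⟨fun h => congrArg Multiplicative.ofAdd ((E.central_iff hω x).1 fun y => (h y).symm),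
      fun h y => ((E.central_iff hω x).2 h y).symm⟩
  have hs : Surjective E.νh := fun v => by
    obtain ⟨x, hx⟩ := E.ν_surj v.toAdd
    exact ⟨x, congrArg Multiplicative.ofAdd hx⟩
  exact ⟨(QuotientGroup.quotientMulEquivOfEq hk).trans
    (QuotientGroup.quotientKerEquivOfSurjective _ hs), fun x => rfl⟩

theorem exists_eW (E : Ext p H V W ω q) (hs : ∀ w, ∃ u v, ω u v = w) :
    ∃ eW : Multiplicative W ≃* commutator H, ∀ w, (eW w).1 = E.ι w.toAdd :=
  ⟨(MonoidHom.ofInjective (f := E.ιh) (fun _ _ h => E.ι_inj h)).trans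
    (MulEquiv.subgroupCongr (E.commutator_eq hs).symm), fun _ => rfl⟩

/-- A multiplicative isomorphism as a linear isomorphism. -/
noncomputable def toLin (α : Multiplicative V ≃* Multiplicative V') : V ≃ₗ[ZMod p] V' :=
  LinearEquiv.ofBijective
    ((AddMonoidHom.mk' (fun v => (α (Multiplicative.ofAdd v)).toAdd) (by
      intro a b; rw [ofAdd_add, map_mul, toAdd_mul])).toZModLinearMap p) α.bijective

theorem toLin_apply (α : Multiplicative V ≃* Multiplicative V') (v : V) :
    toLin (p := p) α v = (α (Multiplicative.ofAdd v)).toAdd := rfl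

theorem isoclinic_iff (E : Ext p H V W ω q) (E' : Ext p H' V' W' ω' q')
    (hω : ∀ v, ω v = 0 → v = 0) (hω' : ∀ v, ω' v = 0 → v = 0)
    (hs : ∀ w, ∃ u v, ω u v = w) (hs' : ∀ w, ∃ u v, ω' u v = w) :
    Isoclinic H H' ↔ ∃ (γ : V ≃ₗ[ZMod p] V') (h : W ≃ₗ[ZMod p] W'),
      ∀ u v, ω' (γ u) (γ v) = h (ω u v) := by
  obtain ⟨eV, heV⟩ := exists_eV E hω
  obtain ⟨eV', heV'⟩ := exists_eV E' hω'
  obtain ⟨eW, heW⟩ := exists_eW E hs
  obtain ⟨eW', heW'⟩ := exists_eW E' hs'
  constructor
  · rintro ⟨α, β, h⟩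
    refine ⟨toLin (eV.symm.trans (α.trans eV')), toLin (eW.trans (β.trans eW'.symm)), ?_⟩
    intro u v
    obtain ⟨x, rfl⟩ := E.ν_surj u
    obtain ⟨y, rfl⟩ := E.ν_surj v
    obtain ⟨x', hx'⟩ := QuotientGroup.mk_surjective (α (QuotientGroup.mk x))
    obtain ⟨y', hy'⟩ := QuotientGroup.mk_surjective (α (QuotientGroup.mk y))
    have h1 := h x y x' y' (eW (Multiplicative.ofAdd (ω (E.ν x) (E.ν y)))) hx'.symm hy'.symm
      (by rw [heW, comm_eq E]; rfl)
    simp only [toLin_apply, MulEquiv.trans_apply, ← heV, MulEquiv.symm_apply_apply, ← hx', ← hy',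
      heV', toAdd_ofAdd]
    apply E'.ι_inj
    rw [← comm_eq E', ← h1, ← heW', MulEquiv.apply_symm_apply]
  · rintro ⟨γ, h, hc⟩
    refine ⟨eV.trans ((AddEquiv.toMultiplicative γ.toAddEquiv).trans eV'.symm),
      eW.symm.trans ((AddEquiv.toMultiplicative h.toAddEquiv).trans eW'), ?_⟩
    intro x y x' y' w hx hy hw
    have key : ∀ {x x'}, (eV.trans ((AddEquiv.toMultiplicative γ.toAddEquiv).trans eV'.symm))
        (QuotientGroup.mk x) = QuotientGroup.mk x' → γ (E.ν x) = E'.ν x' := by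
      intro x x' hx
      rw [MulEquiv.trans_apply, MulEquiv.trans_apply, MulEquiv.symm_apply_eq, heV, heV'] at hx
      exact hx
    have hw' : eW.symm w = Multiplicative.ofAdd (ω (E.ν x) (E.ν y)) := by
      rw [MulEquiv.symm_apply_eq]
      apply Subtype.ext
      rw [hw, heW, comm_eq E]; rfl
    rw [MulEquiv.trans_apply, MulEquiv.trans_apply, heW', hw', comm_eq E', ← key hx, ← key hy, hc]
    rfl

end Iso

end Pool.Agent.P.MP_0b48ca_al.W
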