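import Mathlib

/-! Alternating maps on `Y* × Y` attached to three operators on `Y`. -/

namespace Pool.Agent.P.MP_0b48ca_al.W

open Function Module

variable {F Y Y' : Type} [Field F] [AddCommGroup Y] [Module F Y] [AddCommGroup Y'] [Module F Y']

/-- An operator acting on `Y* × Y`. -/
def T (N : End F Y) : End F (Dual F Y × Y) := N.dualMap.prodMap N

@[simp] theorem T_fst (N : End F Y) (v : Dual F Y × Y) (y : Y) : (T N v).1 y = v.1 (N y) := rfl

@[simp] theorem T_snd (N : End F Y) (v : Dual F Y × Y) : (T N v).2 = N v.2 := rfl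

theorem V_ext {u v : Dual F Y × Y} (h1 : ∀ y, u.1 y = v.1 y) (h2 : u.2 = v.2) : u = v :=
  Prod.ext (LinearMap.ext h1) h2

/-- The bilinear cocycle. -/
def bet (M : Fin 3 → End F Y) : (Dual F Y × Y) →ₗ[F] (Dual F Y × Y) →ₗ[F] (Fin 3 → F) :=
  LinearMap.mk₂ F (fun u v l => u.1 (M l v.2)) (by intro a b c; ext l; simp)
    (by intro a b c; ext l; simp) (by intro a b c; ext l; simp) (by intro a b c; ext l; simp)

@[simp] theorem bet_apply (M : Fin 3 → End F Y) (u v : Dual F Y × Y) (l : Fin 3) :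
    bet M u v l = u.1 (M l v.2) := rfl

/-- The commutator map. -/
def om (M : Fin 3 → End F Y) : (Dual F Y × Y) →ₗ[F] (Dual F Y × Y) →ₗ[F] (Fin 3 → F) :=
  bet M - (bet M).flip

@[simp] theorem om_apply (M : Fin 3 → End F Y) (u v : Dual F Y × Y) (l : Fin 3) :
    om M u v l = u.1 (M l v.2) - v.1 (M l u.2) := rfl

/-- The linear part of the power map. -/
def pw (u0 : Y) (ψ0 : Dual F Y) : (Dual F Y × Y) →ₗ[F] (Fin 3 → F) :=
  (LinearMap.single F (fun _ => F) 0).comp (LinearMap.coprod (Dual.eval F Y u0) ψ0)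

theorem pw_apply (u0 : Y) (ψ0 : Dual F Y) (v : Dual F Y × Y) :
    pw u0 ψ0 v = Pi.single 0 (v.1 u0 + ψ0 v.2) := rfl

/-- Linear combinations of the three operators. -/
def Mx (M : Fin 3 → End F Y) (x : Fin 3 → F) : End F Y := ∑ l, x l • M l

theorem Mx_apply (M : Fin 3 → End F Y) (x : Fin 3 → F) (y : Y) :
    Mx M x y = x 0 • M 0 y + x 1 • M 1 y + x 2 • M 2 y := by
  simp [Mx, Fin.sum_univ_three]

theorem nondeg0 {v : Dual F Y × Y} (h : ∀ u : Dual F Y × Y, u.1 v.2 - v.1 u.2 = 0) : v = 0 := by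
  refine V_ext (fun y => ?_) ?_
  · simpa using h (0, y)
  · exact (Module.forall_dual_apply_eq_zero_iff F v.2).1 fun φ => by simpa using h (φ, 0)

theorem om_nondeg {M : Fin 3 → End F Y} (h0 : M 0 = 1) (v : Dual F Y × Y) (h : om M v = 0) :
    v = 0 := nondeg0 fun u => by
  have := congrFun (LinearMap.congr_fun h u) 0
  simp only [om_apply, h0, End.one_apply, LinearMap.zero_apply, Pi.zero_apply] at this
  linear_combination -this

/-- The matrix of a linear map of the centre. -/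
def hm (h : (Fin 3 → F) →ₗ[F] (Fin 3 → F)) (l m : Fin 3) : F := h (Pi.single m 1) l

theorem hm_apply (h : (Fin 3 → F) →ₗ[F] (Fin 3 → F)) (w : Fin 3 → F) (l : Fin 3) :
    h w l = w 0 * hm h l 0 + w 1 * hm h l 1 + w 2 * hm h l 2 := by
  have : w = w 0 • Pi.single 0 1 + w 1 • Pi.single 1 1 + w 2 • Pi.single 2 1 := by
    ext m; fin_cases m <;> simp
  conv_lhs => rw [this]
  simp only [map_add, map_smul, Pi.add_apply, Pi.smul_apply, smul_eq_mul, hm]

theorem hm_ne (h : (Fin 3 → F) ≃ₗ[F] (Fin 3 → F)) (l : Fin 3) : hm h.toLinearMap l ≠ 0 := by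
  intro h0
  obtain ⟨w, hw⟩ := h.surjective (Pi.single l 1)
  have := hm_apply h.toLinearMap w l
  rw [h0] at this
  simp [hw] at this

theorem rel {M : Fin 3 → End F Y} {M' : Fin 3 → End F Y'} (h0 : M' 0 = 1)
    (γ : (Dual F Y × Y) ≃ₗ[F] (Dual F Y' × Y')) (h : (Fin 3 → F) →ₗ[F] (Fin 3 → F))
    (hc : ∀ u v, om M' (γ u) (γ v) = h (om M u v)) (l : Fin 3) (v w : Dual F Y × Y)
    (hw : T (Mx M (hm h 0)) w = T (Mx M (hm h l)) v) : γ w = T (M' l) (γ v) := by
  have key : ∀ l u v, om M' (γ u) (γ v) l =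
      u.1 (T (Mx M (hm h l)) v).2 - (T (Mx M (hm h l)) v).1 u.2 := by
    intro l u v
    rw [hc, hm_apply]
    simp only [om_apply, T_fst, T_snd, Mx_apply, map_add, map_smul, smul_eq_mul]
    ring
  rw [← sub_eq_zero]
  refine nondeg0 fun u => ?_
  obtain ⟨u, rfl⟩ := γ.surjective u
  have h1 := key 0 u w
  have h2 := key l u v
  rw [← hw, ← h1] at h2
  simp only [om_apply, h0, End.one_apply] at h2
  simp only [Prod.snd_sub, Prod.fst_sub, map_sub, LinearMap.sub_apply, T_fst, T_snd]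
  linear_combination -h2

theorem om_surj [FiniteDimensional F Y] {M : Fin 3 → End F Y}
    (hM : ∀ x, x ≠ 0 → Injective (Mx M x)) (v : Dual F Y × Y) (hv : v ≠ 0) :
    Surjective (om M v) := by
  by_contra hs
  rw [← LinearMap.range_eq_top] at hs
  obtain ⟨f, hf0, hf⟩ := Submodule.exists_le_ker_of_lt_top _ (lt_top_iff_ne_top.2 hs)
  let x : Fin 3 → F := fun m => f (Pi.single m 1)
  have hfx : ∀ w, f w = w 0 * x 0 + w 1 * x 1 + w 2 * x 2 := by
    intro w
    have : w = w 0 • Pi.single 0 1 + w 1 • Pi.single 1 1 + w 2 • Pi.single 2 1 := by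
      ext m; fin_cases m <;> simp
    conv_lhs => rw [this]
    simp only [map_add, map_smul, smul_eq_mul, x]
  have hx : x ≠ 0 := by
    intro h0
    refine hf0 (LinearMap.ext fun w => ?_)
    rw [hfx, h0]; simp
  have key : ∀ u : Dual F Y × Y, v.1 (Mx M x u.2) - u.1 (Mx M x v.2) = 0 := by
    intro u
    have : f (om M v u) = 0 := hf ⟨u, rfl⟩
    rw [hfx] at this
    simp only [om_apply] at this
    simp only [Mx_apply, map_add, map_smul, smul_eq_mul]
    linear_combination this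
  apply hv
  refine V_ext (fun y => ?_) ?_
  · obtain ⟨y, rfl⟩ := LinearMap.surjective_of_injective (hM x hx) y
    simpa using key (0, y)
  · apply hM x hx
    rw [Prod.snd_zero, map_zero]
    exact (Module.forall_dual_apply_eq_zero_iff F _).1 fun φ => by simpa using key (φ, 0)

theorem exists_gamma {M : Fin 3 → End F Y} {M' : Fin 3 → End F Y'} (α : Y ≃ₗ[F] Y') (μ : Fˣ)
    (hα : ∀ l y, α (M l y) = M' l (α y)) :
    ∃ (γ : (Dual F Y × Y) ≃ₗ[F] (Dual F Y' × Y')) (h : (Fin 3 → F) ≃ₗ[F] (Fin 3 → F)),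
      (∀ v y, (γ v).1 (α y) = μ.1 * v.1 y) ∧ (∀ v, (γ v).2 = α v.2) ∧ (∀ w, h w = μ.1 • w) ∧
      (∀ u v, bet M' (γ u) (γ v) = h (bet M u v)) ∧ ∀ u v, om M' (γ u) (γ v) = h (om M u v) := by
  let γ : (Dual F Y × Y) ≃ₗ[F] (Dual F Y' × Y') :=
    (α.symm.dualMap.trans (LinearEquiv.smulOfUnit μ)).prodCongr α
  have h1 : ∀ v y, (γ v).1 (α y) = μ.1 * v.1 y := by
    intro v y
    simp [γ, LinearEquiv.smulOfUnit, Units.smul_def]
  have h2 : ∀ v, (γ v).2 = α v.2 := fun v => rfl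
  have h3 : ∀ w : Fin 3 → F, (LinearEquiv.smulOfUnit μ : _ ≃ₗ[F] _) w = μ.1 • w := fun w => rfl
  refine ⟨γ, LinearEquiv.smulOfUnit μ, h1, h2, h3, fun u v => ?_, fun u v => ?_⟩
  · ext l
    rw [h3, bet_apply, h2, ← hα, h1]; rfl
  · ext l
    rw [h3, om_apply, h2, h2, ← hα, ← hα, h1, h1, Pi.smul_apply, om_apply, smul_eq_mul, mul_sub]

theorem dual_part {M : Fin 3 → End F Y} {M' : Fin 3 → End F Y'} (h0 : M 0 = 1) (h0' : M' 0 = 1)
    (γ : (Dual F Y × Y) ≃ₗ[F] (Dual F Y' × Y')) (h : (Fin 3 → F) → (Fin 3 → F))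
    (hc : ∀ u v, om M' (γ u) (γ v) = h (om M u v)) (α : Y → Y') (μ : F)
    (h1 : ∀ y, γ (0, y) = (0, α y)) (h3 : ∀ w, h w = μ • w) (φ : Dual F Y) (y : Y) :
    (γ (φ, 0)).1 (α y) = μ * φ y := by
  have := congrFun (hc (φ, 0) (0, y)) 0
  rw [h3, h1] at this
  simpa [h0, h0'] using this

end Pool.Agent.P.MP_0b48ca_al.W
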