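import Pool.Agent.P.MP_0b48ca_al.W.Core2
import Pool.Agent.P.MP_0b48ca_al.W.Frame

/-! The wildness theorem. -/

namespace Pool.Agent.P.MP_0b48ca_al.W

open Function Module
open scoped Kronecker
open Pool.Agent.P.MP_0b48ca_al.G (Ext Compat)

section Basis

variable {F Z : Type} [Field F] [AddCommGroup Z] [Module F Z] {k n : ℕ} (b : Basis (Fin k) F Z)

variable (n) in
/-- The product basis of `Z ^ n`. -/
noncomputable def bY : Basis (Fin k × Fin n) F (Fin n → Z) :=
  (Pi.basis fun _ : Fin n => b).reindex ((Equiv.sigmaEquivProd _ _).trans (Equiv.prodComm _ _))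

theorem bY_repr (y : Fin n → Z) (ij : Fin k × Fin n) :
    (bY n b).repr y ij = b.repr (y ij.2) ij.1 := by
  rw [bY, Basis.repr_reindex_apply, Pi.basis_repr]; rfl

theorem bY_apply (ij : Fin k × Fin n) : bY n b ij = Pi.single ij.2 (b ij.1) := by
  simp [bY]

theorem toMatrix_tens (R : End F Z) (A : Matrix (Fin n) (Fin n) F) :
    LinearMap.toMatrix (bY n b) (bY n b) (tens R A) = LinearMap.toMatrix b b R ⊗ₖ A := by
  ext ij ij'
  rw [LinearMap.toMatrix_apply, bY_repr, bY_apply, tens_apply,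
    Finset.sum_eq_single ij'.2 (fun j _ hj => by simp [hj]) (by simp)]
  simp [Matrix.kroneckerMap_apply, LinearMap.toMatrix_apply, mul_comm]

/-- The vector with coordinates `U`. -/
noncomputable def vec (U : Matrix (Fin n) (Fin k) F) : Fin n → Z :=
  (bY n b).equivFun.symm fun ij => U ij.2 ij.1

theorem repr_vec (U : Matrix (Fin n) (Fin k) F) (ij : Fin k × Fin n) :
    (bY n b).repr (vec b U) ij = U ij.2 ij.1 := by
  rw [vec, ← Basis.equivFun_apply, LinearEquiv.apply_symm_apply]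

/-- The covector with coordinates `C`. -/
noncomputable def cov (C : Matrix (Fin k) (Fin n) F) : Dual F (Fin n → Z) :=
  (bY n b).constr F fun ij => C ij.1 ij.2

theorem cov_basis (C : Matrix (Fin k) (Fin n) F) (ij : Fin k × Fin n) :
    cov b C (bY n b ij) = C ij.1 ij.2 := by
  rw [cov, Basis.constr_basis]

theorem vec_iff (P : Matrix (Fin n) (Fin n) F) (U U' : Matrix (Fin n) (Fin k) F) :
    tens 1 P (vec b U) = vec b U' ↔ P * U = U' := by
  have h1 : ∀ i j, (bY n b).repr (tens 1 P (vec b U)) (i, j) = (P * U) j i := by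
    intro i j
    rw [bY_repr, tens_apply, map_sum, Finset.sum_apply', Matrix.mul_apply]
    refine Finset.sum_congr rfl fun j' _ => ?_
    rw [map_smul, Finsupp.smul_apply, End.one_apply, smul_eq_mul]
    congr 1
    exact (bY_repr b (vec b U) (i, j')).symm.trans (repr_vec b U _)
  constructor
  · intro h
    ext j i
    rw [← h1, h, repr_vec]
  · intro h
    refine (bY n b).ext_elem fun ij => ?_
    rw [repr_vec, ← h, h1]

theorem cov_iff (P : Matrix (Fin n) (Fin n) F) (μ : F) (C C' : Matrix (Fin k) (Fin n) F) :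
    (∀ y, cov b C' (tens 1 P y) = μ * cov b C y) ↔ C' * P = μ • C := by
  have h1 : ∀ i j, cov b C' (tens 1 P (bY n b (i, j))) = (C' * P) i j := by
    intro i j
    have : tens 1 P (bY n b (i, j)) = ∑ j', P j' j • bY n b (i, j') := by
      ext j'
      rw [bY_apply, tens_apply, Finset.sum_eq_single j (fun j _ hj => by simp [hj]) (by simp),
        Finset.sum_apply, Finset.sum_eq_single j' (fun j _ hj => by simp [bY_apply, hj.symm])
        (by simp)]
      simp [bY_apply]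
    rw [this, map_sum, Matrix.mul_apply]
    exact Finset.sum_congr rfl fun j' _ => by rw [map_smul, cov_basis, smul_eq_mul, mul_comm]
  constructor
  · intro h
    ext i j
    rw [← h1, h, cov_basis]; rfl
  · intro h
    have : (cov b C').comp (tens 1 P) = μ • cov b C := (bY n b).ext fun ij => by
      rw [LinearMap.comp_apply, h1, h, LinearMap.smul_apply, cov_basis]; rfl
    exact fun y => LinearMap.congr_fun this y

/-- The isomorphism `1 ⊗ P`. -/
def tensEquiv (P : GL (Fin n) F) : (Fin n → Z) ≃ₗ[F] (Fin n → Z) :=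
  LinearEquiv.ofLinearMap (tens 1 P.1) (tens 1 (P⁻¹).1)
    (LinearMap.ext fun y => by
      rw [LinearMap.comp_apply, tens_tens, P.mul_inv, mul_one, tens_one_one]; rfl)
    (LinearMap.ext fun y => by
      rw [LinearMap.comp_apply, tens_tens, P.inv_mul, mul_one, tens_one_one]; rfl)

end Basis

variable {p : ℕ} [hp : Fact p.Prime] {K : Type} [Field K] [Algebra (ZMod p) K] (Δ : Data p K)
  {k n : ℕ} (b : Basis (Fin k) (ZMod p) (Fin 6 → K))

/-- The four matrices. -/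
noncomputable def RR : Fin 4 → Matrix (Fin k) (Fin k) (ZMod p) :=
  fun l => LinearMap.toMatrix b b (![D0 p Δ.θ, R2 Δ, E0 p K 4, E0 p K 5] l)

/-- The power map. -/
noncomputable def qq (X : Framed p k n) : VV p K n → Fin 3 → ZMod p :=
  fun v => pw (vec b X.U) (cov b X.C) v + p.choose 2 • bet (MM Δ X.A X.B) v v

theorem exists_ext (X : Framed p k n) :
    Nonempty (Ext p (Grp (RR Δ b) X) (VV p K n) (Fin 3 → ZMod p) (om (MM Δ X.A X.B))
      (qq Δ b X)) := by
  let e := (bY n b).dualBasis.prod (bY n b)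
  obtain ⟨H, _, ⟨E⟩⟩ := G.exists_model e (bet (MM Δ X.A X.B)) (pw (vec b X.U) (cov b X.C))
  have h1 : ∀ i, e (.inl i) = ((bY n b).coord i, 0) := fun i =>
    Prod.ext (by simp [e]) (by simp [e])
  have h2 : ∀ i, e (.inr i) = (0, bY n b i) := fun i => Prod.ext (by simp [e]) (by simp [e])
  obtain ⟨f⟩ := iso_of_frame (pencil (RR Δ b) X)
    (fun ij => X.U ij.2 ij.1) (fun ij => X.C ij.1 ij.2) (ω := om (MM Δ X.A X.B)) (q := qq Δ b X)
    E e (fun i j => by ext l; simp [h1]) (fun i j => by ext l; simp [h2])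
    (fun i j => by
      ext l
      have : om (MM Δ X.A X.B) (e (.inl i)) (e (.inr j)) l =
          LinearMap.toMatrix (bY n b) (bY n b) (MM Δ X.A X.B l) i j := by
        simp [h1, h2, LinearMap.toMatrix_apply]
      rw [this]
      fin_cases l
      · simp [MM, pencil]
      · simp [MM, D, toMatrix_tens, RR, pencil]
      · simp [MM, M2, toMatrix_tens, RR, pencil])
    (fun i => by ext l; simp [qq, h1, pw_apply, repr_vec])
    (fun i => by ext l; simp [qq, h2, pw_apply, cov_basis])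
  exact ⟨E.transport f⟩

theorem tens_MM {A B A' B' P : Matrix (Fin n) (Fin n) (ZMod p)} (hA : P * A = A' * P)
    (hB : P * B = B' * P) (l : Fin 3) (y : Fin n → Fin 6 → K) :
    tens 1 P (MM Δ A B l y) = MM Δ A' B' l (tens 1 P y) := by
  fin_cases l
  · rfl
  · simp [MM, D, tens_tens]
  · simp [MM, M2, tens_tens, hA, hB]

variable [Finite K]

theorem compat_imp (j0 : Fin n) {X X' : Framed p k n} {γ : VV p K n ≃ₗ[ZMod p] VV p K n}
    {h : (Fin 3 → ZMod p) ≃ₗ[ZMod p] (Fin 3 → ZMod p)}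
    (hc : Compat (om (MM Δ X.A X.B)) (qq Δ b X) (om (MM Δ X'.A X'.B)) (qq Δ b X') γ h) :
    ∃ P μ, Carries P μ X X' ∧ (∀ w, h w = μ.1 • w) ∧ (∀ y, γ (0, y) = (0, tens 1 P.1 y)) ∧
      (∀ φ, (γ (φ, 0)).2 = 0) ∧ ∀ φ y, (γ (φ, 0)).1 (tens 1 P.1 y) = μ.1 * φ y := by
  obtain ⟨P, μ, ⟨P, rfl⟩, hμ, hA, hB, hh, hY, hX⟩ := core Δ j0 hc.1
  have hd := dual_part (M := MM Δ X.A X.B) (M' := MM Δ X'.A X'.B) rfl rfl γ h hc.1 _ μ hY hh
  refine ⟨P, Units.mk0 μ hμ, ⟨hA, hB, (vec_iff b _ _ _).1 ?_, (cov_iff b _ _ _ _).1 fun y => ?_⟩,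
    hh, hY, hX, hd⟩
  · obtain ⟨y, hy⟩ := (tensEquiv P).surjective (vec b X'.U)
    have hy : tens 1 P.1 y = vec b X'.U := hy
    rw [← hy]
    congr 1
    rw [← sub_eq_zero, ← Module.forall_dual_apply_eq_zero_iff (ZMod p)]
    intro φ
    have h1 := congrFun (hc.2 (φ, 0)) 0
    rw [hh] at h1
    simp only [qq, pw_apply, hX, Pi.add_apply, Pi.smul_apply, bet_apply, map_zero, smul_zero,
      add_zero, Pi.single_eq_same, smul_eq_mul, ← hy, hd] at h1
    rw [map_sub, mul_left_cancel₀ hμ h1, sub_self]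
  · have h1 := congrFun (hc.2 (0, y)) 0
    rw [hh, hY] at h1
    simpa [qq, pw_apply] using h1

omit [Finite K] in
theorem imp_compat {X X' : Framed p k n} {P : GL (Fin n) (ZMod p)} {μ : (ZMod p)ˣ}
    (hP : Carries P μ X X') : ∃ (γ : VV p K n ≃ₗ[ZMod p] VV p K n)
      (h : (Fin 3 → ZMod p) ≃ₗ[ZMod p] (Fin 3 → ZMod p)),
      Compat (om (MM Δ X.A X.B)) (qq Δ b X) (om (MM Δ X'.A X'.B)) (qq Δ b X') γ h ∧
      (∀ v, (γ v).2 = tens 1 P.1 v.2) ∧ ∀ w, h w = μ.1 • w := by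
  obtain ⟨hA, hB, hU, hC⟩ := hP
  obtain ⟨γ, h, h1, h2, h3, h4, h5⟩ := exists_gamma (M := MM Δ X.A X.B) (M' := MM Δ X'.A X'.B)
    (tensEquiv P) μ (tens_MM Δ hA hB)
  refine ⟨γ, h, ⟨h5, fun v => ?_⟩, h2, h3⟩
  simp only [qq, map_add, map_nsmul, h4]
  congr 1
  have h6 := h1 v (vec b X.U)
  have h7 : tensEquiv P (vec b X.U) = vec b X'.U := (vec_iff b _ _ _).2 hU
  have h8 : cov b X'.C (tensEquiv P v.2) = μ.1 * cov b X.C v.2 := (cov_iff b _ _ _ _).2 hC _
  rw [h7] at h6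
  rw [h3, pw_apply, pw_apply, h6, h2, h8, ← Pi.single_smul, smul_eq_mul, mul_add]

theorem om_onto (j0 : Fin n) (A B : Matrix (Fin n) (Fin n) (ZMod p)) (w : Fin 3 → ZMod p) :
    ∃ u v, om (MM Δ A B) u v = w :=
  ⟨(0, 1), om_surj (Mx_inj Δ A B) _ (fun h =>
    one_ne_zero (congrFun (congrFun (congrArg Prod.snd h) j0) 0)) w⟩

omit [Finite K] in
theorem om_nd (A B : Matrix (Fin n) (Fin n) (ZMod p)) (v : VV p K n)
    (h : om (MM Δ A B) v = 0) : v = 0 := om_nondeg rfl v h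

theorem part_struct (j0 : Fin n) (X : Framed p k n) :
    Nat.card (Grp (RR Δ b) X) = p ^ (2 * k * n + 3) ∧
      Subgroup.center (Grp (RR Δ b) X) = commutator (Grp (RR Δ b) X) ∧
      Nonempty (commutator (Grp (RR Δ b) X) ≃* Multiplicative (Fin 3 → ZMod p)) := by
  obtain ⟨E⟩ := exists_ext Δ b X
  obtain ⟨eW, -⟩ := exists_eW E (om_onto Δ j0 _ _)
  refine ⟨?_, by rw [E.center_eq (om_nd Δ _ _), E.commutator_eq (om_onto Δ j0 _ _)], ⟨eW.symm⟩⟩
  rw [E.card_eq, Nat.card_congr ((bY n b).dualBasis.prod (bY n b)).equivFun.toEquiv]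
  rw [Nat.card_fun, Nat.card_fun, Nat.card_zmod]
  simp only [Nat.card_eq_fintype_card, Fintype.card_sum, Fintype.card_prod, Fintype.card_fin]
  ring

theorem part_iso (j0 : Fin n) (X X' : Framed p k n) :
    Nonempty (Grp (RR Δ b) X ≃* Grp (RR Δ b) X') ↔ ∃ P μ, Carries P μ X X' := by
  obtain ⟨E⟩ := exists_ext Δ b X
  obtain ⟨E'⟩ := exists_ext Δ b X'
  constructor
  · rintro ⟨α⟩
    obtain ⟨γ, h, hc, -⟩ := E.descend E' (om_nd Δ _ _) (om_nd Δ _ _) α
    obtain ⟨P, μ, hP, -⟩ := compat_imp Δ b j0 hc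
    exact ⟨P, μ, hP⟩
  · rintro ⟨P, μ, hP⟩
    obtain ⟨γ, h, hc, -⟩ := imp_compat Δ b hP
    obtain ⟨α, -⟩ := E.lift E' G.inj_of_field γ h hc
    exact ⟨α⟩

theorem part_isoclinic (j0 : Fin n) (X X' : Framed p k n) :
    Isoclinic (Grp (RR Δ b) X) (Grp (RR Δ b) X') ↔
      ∃ P : GL (Fin n) (ZMod p), P.1 * X.A = X'.A * P.1 ∧ P.1 * X.B = X'.B * P.1 := by
  obtain ⟨E⟩ := exists_ext Δ b X
  obtain ⟨E'⟩ := exists_ext Δ b X'
  rw [isoclinic_iff E E' (om_nd Δ _ _) (om_nd Δ _ _) (om_onto Δ j0 _ _) (om_onto Δ j0 _ _)]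
  constructor
  · rintro ⟨γ, h, hc⟩
    obtain ⟨P, μ, ⟨P, rfl⟩, -, hA, hB, -⟩ := core Δ j0 hc
    exact ⟨P, hA, hB⟩
  · rintro ⟨P, hA, hB⟩
    obtain ⟨γ, h, -, -, -, -, h5⟩ := exists_gamma (M := MM Δ X.A X.B) (M' := MM Δ X'.A X'.B)
      (tensEquiv P) 1 (tens_MM Δ hA hB)
    exact ⟨γ, h, h5⟩

theorem part_cp (j0 : Fin n) (X : Framed p k n) :
    AllCP (Grp (RR Δ b) X) ↔ ∀ P μ, Carries P μ X X → P = 1 ∧ μ = 1 := by
  obtain ⟨E⟩ := exists_ext Δ b X
  constructor
  · intro hG P μ hP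
    obtain ⟨γ, h, hc, h1, h2⟩ := imp_compat Δ b hP
    obtain ⟨h3, h4⟩ := E.stab_of_allCP G.inj_of_field hG γ h hc
    constructor
    · ext j j'
      have h5 := congrFun (congrFun (h1 (0, Pi.single j' 1)) j) 0
      rw [h3, tens_apply, Finset.sum_eq_single j' (fun j _ hj => by simp [hj]) (by simp)] at h5
      apply (algebraMap (ZMod p) K).injective
      by_cases hj : j = j'
      · subst hj; simpa [Algebra.smul_def] using h5.symm
      · simpa [Algebra.smul_def, hj] using h5.symm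
    · have h5 := congrFun (h2 1) 0
      rw [h4] at h5
      exact Units.ext (by simpa using h5.symm)
  · intro hX
    refine E.allCP_of (om_nd Δ _ _) (fun v ℓ => ?_) (fun γ h hc => ?_)
    · by_cases hv : v = 0
      · exact ⟨0, by simp [hv]⟩
      · exact om_surj (Mx_inj Δ _ _) v hv _
    · obtain ⟨P, μ, hP, h1, h2, h3, h4⟩ := compat_imp Δ b j0 hc
      obtain ⟨rfl, rfl⟩ := hX P μ hP
      simp only [Units.val_one, tens_one_one, one_smul, one_mul] at h1 h2 h4
      refine ⟨fun v => ?_, h1⟩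
      have : v = (v.1, 0) + (0, v.2) := by simp
      rw [this, map_add, h2, V_ext (u := γ (v.1, 0)) (v := (v.1, 0)) (h4 _) (h3 _)]

omit [Finite K] in
theorem exists_rigid (j0 : Fin n) (hn : n ≤ k) (A B : Matrix (Fin n) (Fin n) (ZMod p)) :
    ∃ U C, ∀ P μ, Carries P μ (⟨A, B, U, C⟩ : Framed p k n) ⟨A, B, U, C⟩ → P = 1 ∧ μ = 1 := by
  refine ⟨Matrix.of fun j i => if i = j.castLE hn then 1 else 0, Matrix.of fun _ _ => 1, ?_⟩
  rintro P μ ⟨-, -, hU, hC⟩
  have hP : P = 1 := by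
    ext j j'
    have := congrFun (congrFun hU j) (j'.castLE hn)
    simpa [Matrix.mul_apply, Matrix.one_apply, eq_comm] using this
  subst hP
  have := congrFun (congrFun hC (j0.castLE hn)) j0
  exact ⟨rfl, Units.ext (by simpa using this.symm)⟩

end Pool.Agent.P.MP_0b48ca_al.W
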