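import Pool.Agent.P.MP_0b48ca_al.W.Lin
import Pool.Agent.P.MP_0b48ca_al.W.Fld

/-! The three operators of the wildness construction and their nonsingularity. -/

namespace Pool.Agent.P.MP_0b48ca_al.W

open Function Module

section Tens

variable {F Z : Type} [Field F] [AddCommGroup Z] [Module F Z] {n : ℕ}

/-- The operator `R ⊗ A` on `Z ^ n`. -/
def tens (R : End F Z) (A : Matrix (Fin n) (Fin n) F) : End F (Fin n → Z) where
  toFun y j := ∑ j', A j j' • R (y j')
  map_add' y z := by ext j; simp [Finset.sum_add_distrib]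
  map_smul' a y := by ext j; simp [Finset.smul_sum, smul_smul, mul_comm]

theorem tens_apply (R : End F Z) (A : Matrix (Fin n) (Fin n) F) (y : Fin n → Z) (j : Fin n) :
    tens R A y j = ∑ j', A j j' • R (y j') := rfl

theorem tens_one_apply (R : End F Z) (y : Fin n → Z) (j : Fin n) : tens R 1 y j = R (y j) := by
  simp [tens_apply, Matrix.one_apply]

theorem tens_tens (R R' : End F Z) (A A' : Matrix (Fin n) (Fin n) F) (y : Fin n → Z) :
    tens R A (tens R' A' y) = tens (R * R') (A * A') y := by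
  ext j
  simp only [tens_apply, map_sum, map_smul, Finset.smul_sum, smul_smul, Matrix.mul_apply,
    Finset.sum_smul, End.mul_apply]
  exact Finset.sum_comm

theorem tens_one_one (y : Fin n → Z) : tens (1 : End F Z) 1 y = y := by
  ext j; rw [tens_one_apply]; rfl

end Tens

variable {p : ℕ} [hp : Fact p.Prime] {K : Type} [Field K] [Algebra (ZMod p) K] (Δ : Data p K)
  {n : ℕ}

variable (p) in
/-- Diagonal operators on `K ^ 6`. -/
def D0 (κ : Fin 6 → K) : End (ZMod p) (Fin 6 → K) := LinearMap.mulLeft (ZMod p) κ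

variable (p n) in
/-- Diagonal operators on `(K ^ 6) ^ n`. -/
def D (κ : Fin 6 → K) : End (ZMod p) (Fin n → Fin 6 → K) := tens (D0 p κ) 1

@[simp] theorem D_apply (κ : Fin 6 → K) (y : Fin n → Fin 6 → K) (j : Fin n) (i : Fin 6) :
    D p n κ y j i = κ i * y j i := by
  rw [D, tens_one_apply]; rfl

variable (p n K) in
/-- Diagonal operators on `Y* × Y`. -/
def TD : (Fin 6 → K) →+*
    End (ZMod p) (Dual (ZMod p) (Fin n → Fin 6 → K) × (Fin n → Fin 6 → K)) where
  toFun κ := T (D p n κ)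
  map_one' := by
    have : D p n (1 : Fin 6 → K) = 1 := by ext y j i; simp
    rw [this]; rfl
  map_mul' κ κ' := LinearMap.ext fun v => V_ext
    (fun y => by
      simp only [End.mul_apply, T_fst]
      congr 1; ext j i; simp [mul_left_comm, mul_assoc])
    (by ext j i; simp [mul_assoc])
  map_zero' := LinearMap.ext fun v => V_ext
    (fun y => by
      have : D p n (0 : Fin 6 → K) y = 0 := by ext j i; simp
      simp [this])
    (by ext j i; simp)
  map_add' κ κ' := LinearMap.ext fun v => V_ext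
    (fun y => by
      have : D p n (κ + κ') y = D p n κ y + D p n κ' y := by ext j i; simp [add_mul]
      simp [this])
    (by ext j i; simp [add_mul])

@[simp] theorem TD_fst (κ : Fin 6 → K)
    (v : Dual (ZMod p) (Fin n → Fin 6 → K) × (Fin n → Fin 6 → K)) (y : Fin n → Fin 6 → K) :
    (TD p K n κ v).1 y = v.1 (D p n κ y) := rfl

@[simp] theorem TD_snd (κ : Fin 6 → K)
    (v : Dual (ZMod p) (Fin n → Fin 6 → K) × (Fin n → Fin 6 → K)) :
    (TD p K n κ v).2 = D p n κ v.2 := rfl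

theorem TD_TD (κ κ' : Fin 6 → K)
    (v : Dual (ZMod p) (Fin n → Fin 6 → K) × (Fin n → Fin 6 → K)) :
    TD p K n κ (TD p K n κ' v) = TD p K n (κ * κ') v := by
  rw [map_mul]; rfl

theorem TD_inv {κ : Fin 6 → K} (h : ∀ i, κ i ≠ 0)
    (v : Dual (ZMod p) (Fin n → Fin 6 → K) × (Fin n → Fin 6 → K)) :
    TD p K n κ (TD p K n κ⁻¹ v) = v := by
  have : κ * κ⁻¹ = 1 := by ext i; simp [h i]
  rw [TD_TD, this, map_one]; rfl

theorem TD_eq_zero {κ κ' : Fin 6 → K} (h : ∀ i, κ i ≠ κ' i)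
    {v : Dual (ZMod p) (Fin n → Fin 6 → K) × (Fin n → Fin 6 → K)}
    (hv : TD p K n κ v = TD p K n κ' v) : v = 0 := by
  have h1 : TD p K n (κ - κ') v = 0 := by rw [map_sub, LinearMap.sub_apply, hv, sub_self]
  have h2 := TD_inv (p := p) (κ := (κ - κ')⁻¹) (fun i => by simpa [sub_eq_zero] using h i) v
  rw [inv_inv, h1, map_zero] at h2
  exact h2.symm

theorem blocks (v : Dual (ZMod p) (Fin n → Fin 6 → K) × (Fin n → Fin 6 → K)) :
    ∑ i, TD p K n (Pi.single i 1) v = v := by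
  have : ∑ i, Pi.single i 1 = (1 : Fin 6 → K) := Finset.univ_sum_single (1 : Fin 6 → K)
  rw [← LinearMap.sum_apply, ← map_sum, this, map_one]; rfl

/-- The constant part of the third operator. -/
def R2 : End (ZMod p) (Fin 6 → K) where
  toFun y := ![Δ.c * y 2, y 0, y 1, Δ.c * y 5 + y 0 + y 1,
    y 3 + algebraMap (ZMod p) K (Δ.π (y 1)), y 4]
  map_add' y z := by
    ext i; fin_cases i <;> simp <;> ring
  map_smul' a y := by
    ext i; fin_cases i <;> simp
    simp only [Algebra.smul_def]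

variable (p K) in
/-- The edge from block `0` to block `i`. -/
def E0 (i : Fin 6) : End (ZMod p) (Fin 6 → K) :=
  (LinearMap.single (ZMod p) (fun _ => K) i).comp (LinearMap.proj 0)

/-- The third operator. -/
def M2 (A B : Matrix (Fin n) (Fin n) (ZMod p)) : End (ZMod p) (Fin n → Fin 6 → K) :=
  tens (R2 Δ) 1 + tens (E0 p K 4) A + tens (E0 p K 5) B

/-- The three operators. -/
def MM (A B : Matrix (Fin n) (Fin n) (ZMod p)) : Fin 3 → End (ZMod p) (Fin n → Fin 6 → K) :=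
  ![1, D p n Δ.θ, M2 Δ A B]

variable (A B : Matrix (Fin n) (Fin n) (ZMod p))

theorem M2_apply (y : Fin n → Fin 6 → K) (j : Fin n) :
    M2 Δ A B y j = ![Δ.c * y j 2, y j 0, y j 1, Δ.c * y j 5 + y j 0 + y j 1,
      y j 3 + algebraMap (ZMod p) K (Δ.π (y j 1)) + ∑ j', A j j' • y j' 0,
      y j 4 + ∑ j', B j j' • y j' 0] := by
  ext i
  simp only [M2, LinearMap.add_apply, Pi.add_apply, tens_one_apply]
  simp only [tens_apply, Finset.sum_apply, Pi.smul_apply]
  fin_cases i <;> simp [R2, E0]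

/-- The diagonal part of a linear combination. -/
def kap (x : Fin 3 → ZMod p) : Fin 6 → K :=
  fun i => algebraMap (ZMod p) K (x 0) + algebraMap (ZMod p) K (x 1) * Δ.θ i

theorem Mx_MM (x : Fin 3 → ZMod p) (y : Fin n → Fin 6 → K) :
    Mx (MM Δ A B) x y = D p n (kap Δ x) y + x 2 • M2 Δ A B y := by
  rw [Mx_apply]
  ext j i
  simp [MM, kap, Algebra.smul_def, add_mul, mul_assoc]

theorem T_Mx (x : Fin 3 → ZMod p)
    (v : Dual (ZMod p) (Fin n → Fin 6 → K) × (Fin n → Fin 6 → K)) :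
    T (Mx (MM Δ A B) x) v = TD p K n (kap Δ x) v + x 2 • T (M2 Δ A B) v :=
  V_ext (fun y => by simp [Mx_MM]) (by simp [Mx_MM])

omit hp [Algebra (ZMod p) K] in
theorem cyc3 {a0 a1 a2 t c y0 y1 y2 : K} (h : a0 * a1 * a2 + c * t ^ 3 ≠ 0)
    (h0 : a0 * y0 + t * (c * y2) = 0) (h1 : a1 * y1 + t * y0 = 0) (h2 : a2 * y2 + t * y1 = 0) :
    y0 = 0 ∧ y1 = 0 ∧ y2 = 0 :=
  ⟨(mul_eq_zero.1 (by linear_combination a1 * a2 * h0 - a1 * t * c * h2 + c * t ^ 2 * h1 :
      (a0 * a1 * a2 + c * t ^ 3) * y0 = 0)).resolve_left h,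
    (mul_eq_zero.1 (by linear_combination a0 * a2 * h1 - a2 * t * h0 + c * t ^ 2 * h2 :
      (a0 * a1 * a2 + c * t ^ 3) * y1 = 0)).resolve_left h,
    (mul_eq_zero.1 (by linear_combination a0 * a1 * h2 - a0 * t * h1 + t ^ 2 * h0 :
      (a0 * a1 * a2 + c * t ^ 3) * y2 = 0)).resolve_left h⟩

/-- The Frobenius map `x ↦ x ^ p ^ e`. -/
theorem exists_frob (e : ℕ) : ∃ σ : K →+* K, (∀ x, σ x = x ^ p ^ e) ∧
    ∀ a : ZMod p, σ (algebraMap (ZMod p) K a) = algebraMap (ZMod p) K a := by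
  have : CharP K p := charP_of_injective_algebraMap (algebraMap (ZMod p) K).injective p
  refine ⟨iterateFrobenius K p e, fun x => rfl, fun a => ?_⟩
  rw [iterateFrobenius_def, ← map_pow, ZMod.pow_card_pow]

theorem cub {x0 x1 x2 : K} (h0 : x0 ^ p ^ Δ.M = x0) (h1 : x1 ^ p ^ Δ.M = x1)
    (h2 : x2 ^ p ^ Δ.M = x2) (i j k : Fin 6)
    (h : (x0 + x1 * Δ.θ i) * (x0 + x1 * Δ.θ j) * (x0 + x1 * Δ.θ k) + Δ.c * x2 ^ 3 = 0) :
    x2 = 0 := by
  obtain ⟨σ, hσ, -⟩ := exists_frob (p := p) (K := K) Δ.M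
  have h3 := congrArg σ h
  simp only [map_add, map_mul, map_pow σ x2 3, map_zero] at h3
  simp only [hσ, h0, h1, h2, Δ.θ_M] at h3
  have h4 : (Δ.c ^ p ^ Δ.M - Δ.c) * x2 ^ 3 = 0 := by linear_combination h3 - h
  exact pow_eq_zero_iff three_ne_zero |>.1
    ((mul_eq_zero.1 h4).resolve_left (sub_ne_zero.2 Δ.c_M))

theorem lin_eq {a b : ZMod p} {i : Fin 6}
    (h : algebraMap (ZMod p) K a + algebraMap (ZMod p) K b * Δ.θ i = 0) : a = 0 ∧ b = 0 := by
  obtain ⟨σ, hσ, hσ'⟩ := exists_frob (p := p) (K := K) 1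
  have h3 := congrArg σ h
  rw [map_add, map_mul, hσ', hσ', hσ, pow_one, map_zero] at h3
  have h4 : algebraMap (ZMod p) K b * (Δ.θ i ^ p - Δ.θ i) = 0 := by linear_combination h3 - h
  have hb : b = 0 := (map_eq_zero _).1
    ((mul_eq_zero.1 h4).resolve_right (sub_ne_zero.2 (Δ.θ_one i)))
  rw [hb, map_zero, zero_mul, add_zero, map_eq_zero] at h
  exact ⟨h, hb⟩

theorem alg_fix (a : ZMod p) (e : ℕ) :
    algebraMap (ZMod p) K a ^ p ^ e = algebraMap (ZMod p) K a := by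
  rw [← map_pow, ZMod.pow_card_pow]

theorem kap_ne {x : Fin 3 → ZMod p} (hx : x ≠ 0) (h2 : x 2 = 0) (i : Fin 6) : kap Δ x i ≠ 0 := by
  intro h
  obtain ⟨h0, h1⟩ := lin_eq Δ h
  apply hx
  ext l; fin_cases l <;> simpa

theorem cub_ne {x : Fin 3 → ZMod p} (hx : x ≠ 0) (i j k : Fin 6) :
    kap Δ x i * kap Δ x j * kap Δ x k + Δ.c * algebraMap (ZMod p) K (x 2) ^ 3 ≠ 0 := by
  intro h
  have h2 := cub Δ (alg_fix _ _) (alg_fix _ _) (alg_fix _ _) i j k h
  rw [h2] at h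
  rw [map_eq_zero] at h2
  simp [kap_ne Δ hx h2] at h

theorem Mx_inj (x : Fin 3 → ZMod p) (hx : x ≠ 0) : Injective (Mx (MM Δ A B) x) := by
  rw [injective_iff_map_eq_zero]
  intro y hy
  rw [Mx_MM] at hy
  have h : ∀ j i, kap Δ x i * y j i + algebraMap (ZMod p) K (x 2) * M2 Δ A B y j i = 0 := by
    intro j i
    simpa [Algebra.smul_def] using congrFun (congrFun hy j) i
  have h1 : ∀ j, y j 0 = 0 ∧ y j 1 = 0 ∧ y j 2 = 0 := fun j =>
    cyc3 (cub_ne Δ hx 0 1 2) (by simpa [M2_apply] using h j 0) (by simpa [M2_apply] using h j 1)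
      (by simpa [M2_apply] using h j 2)
  have h2 : ∀ j, y j 3 = 0 ∧ y j 4 = 0 ∧ y j 5 = 0 := fun j =>
    cyc3 (cub_ne Δ hx 3 4 5) (by simpa [M2_apply, h1] using h j 3)
      (by simpa [M2_apply, h1] using h j 4) (by simpa [M2_apply, h1] using h j 5)
  ext j i
  fin_cases i <;> simp [h1, h2]

end Pool.Agent.P.MP_0b48ca_al.W
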